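import Pool.Agent.LTC.BLR

namespace Pool.Agent.LTC

open Finset

variable {F : Type} [Field F] [DecidableEq F] {k : Subfield F}
  {M : Type} [AddCommGroup M] [Fintype M] [Module k M]

/-- Indicator of a violation of the three-point affine relation. -/
def aff (a : k) (f : M → F) (x y : M) : ℕ :=
  if f ((1 - a) • x + a • y) = (1 - (a : F)) * f x + (a : F) * f y then 0 else 1

omit [DecidableEq F] in
theorem sum_smul {β : Type} [AddCommMonoid β] (a : k) (ha : a ≠ 0) (f : M → β) :
    ∑ x, f (a • x) = ∑ x, f x :=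
  Equiv.sum_comp (MulAction.toPerm (Units.mk0 a ha) : Equiv.Perm M) f

theorem affine_blr (a : k) (ha0 : a ≠ 0) (ha1 : a ≠ 1) (f : M → F)
    (hV : 26 * ∑ x, ∑ y, aff a f x y < Fintype.card M * Fintype.card M) :
    ∃ (ψ : M →+ F) (c : F), (∀ x, ψ (a • x) = (a : F) * ψ x) ∧
      Fintype.card M * (univ.filter fun x => f x ≠ ψ x + c).card ≤
        4 * ∑ x, ∑ y, aff a f x y := by
  have hb0 : (1 - a : k) ≠ 0 := sub_ne_zero.2 ha1.symm
  set g : M → F := fun x => (1 - (a : F)) * f ((1 - a)⁻¹ • x) with hg
  set h : M → F := fun y => (a : F) * f (a⁻¹ • y) with hh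
  have hvio : ∀ x y, vio f g h ((1 - a) • x) (a • y) = aff a f x y := by
    intro x y
    unfold vio aff
    simp only [hg, hh, smul_smul, inv_mul_cancel₀ hb0, inv_mul_cancel₀ ha0, one_smul]
  have hsum : ∑ x, ∑ y, vio f g h x y = ∑ x, ∑ y, aff a f x y := by
    rw [← sum_smul (1 - a) hb0 (fun x => ∑ y, vio f g h x y)]
    refine sum_congr rfl fun x _ => ?_
    rw [← sum_smul a ha0 (fun y => vio f g h ((1 - a) • x) y)]
    exact sum_congr rfl fun y _ => hvio x y
  set V := ∑ x, ∑ y, aff a f x y with hVdef
  obtain ⟨ψ, c, hψ⟩ := blr f g h (by rw [hsum]; omega)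
  rw [hsum] at hψ
  refine ⟨ψ, c, ?_, hψ⟩
  -- the additive map `θ`
  by_contra hcon
  push Not at hcon
  obtain ⟨z, hz⟩ := hcon
  set θ : M → F := fun x => ψ (a • x) - a * ψ x with hθ
  have hθadd : ∀ x y, θ (x + y) = θ x + θ y := by
    intro x y
    simp only [hθ, smul_add, map_add]
    ring
  have hθz : θ z ≠ 0 := sub_ne_zero.2 hz
  set D := (univ.filter fun x => f x ≠ ψ x + c).card with hD
  -- indicator of badness
  let d : M → ℕ := fun x => if f x = ψ x + c then 0 else 1
  have hd : ∑ x, d x = D := by
    rw [hD, card_filter]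
    refine sum_congr rfl fun x _ => ?_
    simp only [d, ne_eq, ite_not]
  have hgood : ∀ x y, aff a f x y + d ((1 - a) • x + a • y) + d x + d y = 0 →
      θ (y - x) = 0 := by
    intro x y hxy
    have h1 : aff a f x y = 0 := by omega
    have h2 : d ((1 - a) • x + a • y) = 0 := by omega
    have h3 : d x = 0 := by omega
    have h4 : d y = 0 := by omega
    simp only [aff, d, ite_eq_left_iff, one_ne_zero, imp_false, not_not] at h1 h2 h3 h4
    rw [h2, h3, h4] at h1
    simp only [hθ]
    have e1 : ψ ((1 - a) • x + a • y) = ψ x - ψ (a • x) + ψ (a • y) := by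
      rw [map_add, sub_smul, one_smul, map_sub]
    rw [e1] at h1
    rw [smul_sub, map_sub, map_sub]
    linear_combination h1
  have hpair : ∀ x y, 1 ≤ (aff a f x y + d ((1 - a) • x + a • y) + d x + d y) +
      (aff a f x (y + z) + d ((1 - a) • x + a • (y + z)) + d x + d (y + z)) := by
    intro x y
    by_contra hlt
    have h1 := hgood x y (by omega)
    have h2 := hgood x (y + z) (by omega)
    have e : y + z - x = (y - x) + z := by abel
    rw [e, hθadd, h1, zero_add] at h2
    exact hθz h2
  have hS : ∑ x, ∑ y, (aff a f x y + d ((1 - a) • x + a • y) + d x + d y) =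
      V + Fintype.card M * D + Fintype.card M * D + Fintype.card M * D := by
    simp only [sum_add_distrib]
    have e1 : ∑ x : M, ∑ y : M, d ((1 - a) • x + a • y) = Fintype.card M * D := by
      have : ∀ x : M, ∑ y : M, d ((1 - a) • x + a • y) = D := by
        intro x
        rw [sum_smul a ha0 (fun y => d ((1 - a) • x + y)), ← hd]
        exact Equiv.sum_comp (Equiv.addLeft ((1 - a) • x)) d
      rw [sum_congr rfl fun x _ => this x, sum_const, card_univ, smul_eq_mul]
    have e2 : ∑ x : M, ∑ _y : M, d x = Fintype.card M * D := by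
      simp only [sum_const, card_univ, smul_eq_mul, ← mul_sum, hd]
    have e3 : ∑ _x : M, ∑ y : M, d y = Fintype.card M * D := by
      simp only [hd, sum_const, card_univ, smul_eq_mul]
    rw [e1, e2, e3]
  have hS2 : ∑ x, ∑ y, (aff a f x (y + z) + d ((1 - a) • x + a • (y + z)) + d x + d (y + z)) =
      V + Fintype.card M * D + Fintype.card M * D + Fintype.card M * D := by
    rw [← hS]
    refine sum_congr rfl fun x _ => ?_
    exact Equiv.sum_comp (Equiv.addRight z)
      (fun y => aff a f x y + d ((1 - a) • x + a • y) + d x + d y)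
  have htot : Fintype.card M * Fintype.card M ≤
      2 * (V + Fintype.card M * D + Fintype.card M * D + Fintype.card M * D) := by
    calc Fintype.card M * Fintype.card M = ∑ _x : M, ∑ _y : M, 1 := by simp
      _ ≤ ∑ x : M, ∑ y : M, ((aff a f x y + d ((1 - a) • x + a • y) + d x + d y) +
          (aff a f x (y + z) + d ((1 - a) • x + a • (y + z)) + d x + d (y + z))) :=
          sum_le_sum fun x _ => sum_le_sum fun y _ => hpair x y
      _ = _ := by
          rw [sum_congr rfl fun x _ => sum_add_distrib, sum_add_distrib, hS, hS2]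
          ring
  omega

omit [Fintype M] [DecidableEq F] in
theorem smul_of_generator (g : kˣ) (hg : ∀ y : kˣ, y ∈ Submonoid.powers g) (ψ : M →+ F)
    (h : ∀ x, ψ ((g : k) • x) = ((g : k) : F) * ψ x) (b : k) (x : M) :
    ψ (b • x) = (b : F) * ψ x := by
  by_cases hb : b = 0
  · subst hb; simp
  have hpow : ∀ n : ℕ, ∀ x, ψ (((g : k) ^ n) • x) = (((g : k) ^ n : k) : F) * ψ x := by
    intro n
    induction n with
    | zero => intro x; simp
    | succ n ih =>
      intro x
      rw [pow_succ, mul_smul, ih, h]
      push_cast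
      ring
  obtain ⟨n, hn⟩ := hg (Units.mk0 b hb)
  have : b = (g : k) ^ n := by
    have := congrArg (fun u : kˣ => (u : k)) hn
    simpa using this.symm
  rw [this]
  exact hpow n x

end Pool.Agent.LTC
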