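import Mathlib

/-!
# Linearity testing over finite abelian groups (three different functions), elementary version
-/

namespace Pool.Agent.LTC

open Finset

section BLR

variable {M A : Type} [AddCommGroup M] [Fintype M] [AddCommGroup A] [DecidableEq A]

/-- Indicator of a violation of `f (x + y) = g x + h y`. -/
def vio (f g h : M → A) (x y : M) : ℕ := if f (x + y) = g x + h y then 0 else 1

/-- Indicator of an inconsistency of the `u`-difference of `f` at `w` and `w'`. -/
def inc (f : M → A) (u w w' : M) : ℕ := if f (w + u) - f w = f (w' + u) - f w' then 0 else 1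

omit [Fintype M] in
theorem inc_le (f g h : M → A) (s u w w' : M) :
    inc f u w w' ≤ vio f g h (s + u) (w - s) + vio f g h s (w - s) +
      vio f g h (s + u) (w' - s) + vio f g h s (w' - s) := by
  unfold inc
  split_ifs with hD
  · exact Nat.zero_le _
  · by_contra hcon
    have h1 : vio f g h (s + u) (w - s) = 0 := by omega
    have h2 : vio f g h s (w - s) = 0 := by omega
    have h3 : vio f g h (s + u) (w' - s) = 0 := by omega
    have h4 : vio f g h s (w' - s) = 0 := by omega
    unfold vio at h1 h2 h3 h4
    simp only [ite_eq_left_iff, one_ne_zero, imp_false, not_not] at h1 h2 h3 h4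
    apply hD
    have e1 : s + u + (w - s) = w + u := by abel
    have e2 : s + (w - s) = w := by abel
    have e3 : s + u + (w' - s) = w' + u := by abel
    have e4 : s + (w' - s) = w' := by abel
    rw [e1] at h1; rw [e2] at h2; rw [e3] at h3; rw [e4] at h4
    rw [h1, h2, h3, h4]
    abel

theorem sum_inc_le (f g h : M → A) :
    ∑ u, ∑ w, ∑ w', inc f u w w' ≤ 4 * Fintype.card M * ∑ x, ∑ y, vio f g h x y := by
  have hm : 0 < Fintype.card M := Fintype.card_pos
  set V := ∑ x, ∑ y, vio f g h x y with hV
  set m := Fintype.card M with hmdef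
  have h1 : m * ∑ u, ∑ w, ∑ w', inc f u w w' =
      ∑ _s : M, ∑ u, ∑ w, ∑ w', inc f u w w' := by
    rw [sum_const, card_univ, smul_eq_mul]
  have shift : ∀ s y : M, ∑ u, vio f g h (s + u) y = ∑ x, vio f g h x y := fun s y =>
    Equiv.sum_comp (Equiv.addLeft s) (fun x => vio f g h x y)
  have shift' : ∀ s x : M, ∑ w, vio f g h x (w - s) = ∑ y, vio f g h x y := fun s x =>
    Equiv.sum_comp (Equiv.subRight s) (fun y => vio f g h x y)
  have t1 : ∑ s : M, ∑ u : M, ∑ w : M, ∑ _w' : M, vio f g h (s + u) (w - s) = m * (m * V) := by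
    have : ∀ s : M, ∑ u : M, ∑ w : M, ∑ _w' : M, vio f g h (s + u) (w - s) = m * V := by
      intro s
      simp only [sum_const, card_univ, smul_eq_mul, ← mul_sum]
      congr 1
      calc ∑ u : M, ∑ w : M, vio f g h (s + u) (w - s)
          = ∑ u : M, ∑ y : M, vio f g h (s + u) y := sum_congr rfl fun u _ => shift' s _
        _ = V := Equiv.sum_comp (Equiv.addLeft s) (fun x => ∑ y, vio f g h x y)
    rw [sum_congr rfl fun s _ => this s, sum_const, card_univ, smul_eq_mul]
  have t2 : ∑ s : M, ∑ _u : M, ∑ w : M, ∑ _w' : M, vio f g h s (w - s) = m * (m * V) := by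
    have : ∀ s : M, ∑ _u : M, ∑ w : M, ∑ _w' : M, vio f g h s (w - s) =
        m * (m * ∑ y, vio f g h s y) := by
      intro s
      simp only [sum_const, card_univ, smul_eq_mul, ← mul_sum, shift']
      rfl
    simp only [this, ← mul_sum]
    rfl
  have t3 : ∑ s : M, ∑ u : M, ∑ _w : M, ∑ w' : M, vio f g h (s + u) (w' - s) = m * (m * V) := by
    have : ∀ s : M, ∑ u : M, ∑ _w : M, ∑ w' : M, vio f g h (s + u) (w' - s) = m * V := by
      intro s
      simp only [sum_const, card_univ, smul_eq_mul, ← mul_sum]
      congr 1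
      calc ∑ u : M, ∑ w : M, vio f g h (s + u) (w - s)
          = ∑ u : M, ∑ y : M, vio f g h (s + u) y := sum_congr rfl fun u _ => shift' s _
        _ = V := Equiv.sum_comp (Equiv.addLeft s) (fun x => ∑ y, vio f g h x y)
    rw [sum_congr rfl fun s _ => this s, sum_const, card_univ, smul_eq_mul]
  have t4 : ∑ s : M, ∑ _u : M, ∑ _w : M, ∑ w' : M, vio f g h s (w' - s) = m * (m * V) := by
    have : ∀ s : M, ∑ _u : M, ∑ _w : M, ∑ w' : M, vio f g h s (w' - s) =
        m * (m * ∑ y, vio f g h s y) := by
      intro s
      simp only [sum_const, card_univ, smul_eq_mul, shift']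
      rfl
    simp only [this, ← mul_sum]
    rfl
  have h2 : ∑ _s : M, ∑ u, ∑ w, ∑ w', inc f u w w' ≤ 4 * (m * (m * V)) := by
    calc ∑ _s : M, ∑ u, ∑ w, ∑ w', inc f u w w'
        ≤ ∑ s : M, ∑ u, ∑ w, ∑ w', (vio f g h (s + u) (w - s) + vio f g h s (w - s) +
          vio f g h (s + u) (w' - s) + vio f g h s (w' - s)) :=
          sum_le_sum fun s _ => sum_le_sum fun u _ => sum_le_sum fun w _ =>
            sum_le_sum fun w' _ => inc_le f g h s u w w'
      _ = 4 * (m * (m * V)) := by
          simp only [sum_add_distrib]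
          rw [t1, t2, t3, t4]
          ring
  have h3 : m * (∑ u, ∑ w, ∑ w', inc f u w w') ≤ m * (4 * m * V) := by
    rw [h1]
    refine h2.trans (le_of_eq ?_)
    ring
  exact Nat.le_of_mul_le_mul_left h3 hm

/-- Number of `w` at which the `u`-difference of `f` differs from the value `a`. -/
def miss (f : M → A) (u : M) (a : A) : ℕ := ∑ w, if f (w + u) - f w = a then 0 else 1

theorem exists_plurality (f : M → A) (u : M) :
    ∃ a : A, Fintype.card M * miss f u a ≤ ∑ w, ∑ w', inc f u w w' := by
  obtain ⟨w', _, hw'⟩ := Finset.exists_min_image (univ : Finset M)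
    (fun w' => miss f u (f (w' + u) - f w')) univ_nonempty
  refine ⟨f (w' + u) - f w', ?_⟩
  rw [sum_comm]
  have : ∀ w'' : M, ∑ w, inc f u w w'' = miss f u (f (w'' + u) - f w'') := fun w'' => rfl
  simp only [this]
  calc Fintype.card M * miss f u (f (w' + u) - f w')
      = ∑ _w'' : M, miss f u (f (w' + u) - f w') := by
        rw [sum_const, card_univ, smul_eq_mul]
    _ ≤ ∑ w'' : M, miss f u (f (w'' + u) - f w'') := sum_le_sum fun w'' _ => hw' w'' (mem_univ _)

/-- The choice of a plurality value. -/
noncomputable def plu (f : M → A) (u : M) : A := (exists_plurality f u).choose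

theorem plu_spec (f : M → A) (u : M) :
    Fintype.card M * miss f u (plu f u) ≤ ∑ w, ∑ w', inc f u w w' :=
  (exists_plurality f u).choose_spec

theorem sum_miss_le (f g h : M → A) :
    ∑ u, miss f u (plu f u) ≤ 4 * ∑ x, ∑ y, vio f g h x y := by
  have hm : 0 < Fintype.card M := Fintype.card_pos
  refine Nat.le_of_mul_le_mul_left ?_ hm
  calc Fintype.card M * ∑ u, miss f u (plu f u)
      = ∑ u, Fintype.card M * miss f u (plu f u) := mul_sum ..
    _ ≤ ∑ u, ∑ w, ∑ w', inc f u w w' := sum_le_sum fun u _ => plu_spec f u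
    _ ≤ 4 * Fintype.card M * ∑ x, ∑ y, vio f g h x y := sum_inc_le f g h
    _ = Fintype.card M * (4 * ∑ x, ∑ y, vio f g h x y) := by ring

/-- Step 3: every direction has few inconsistencies. -/
theorem inc_direction_le (f g h : M → A) (u : M) :
    ∑ w, ∑ w', inc f u w w' ≤ 8 * ∑ x, ∑ y, vio f g h x y := by
  have hD : ∀ w w', inc f u w w' ≤
      (if f (w' + u + (w - w')) - f (w' + u) = plu f (w - w') then 0 else 1) +
      (if f (w' + (w - w')) - f w' = plu f (w - w') then 0 else 1) := by
    intro w w'
    unfold inc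
    by_cases h1 : f (w + u) - f w = f (w' + u) - f w'
    · rw [if_pos h1]; exact Nat.zero_le _
    by_cases h2 : f (w' + u + (w - w')) - f (w' + u) = plu f (w - w')
    swap
    · rw [if_neg h1, if_neg h2]; omega
    by_cases h3 : f (w' + (w - w')) - f w' = plu f (w - w')
    swap
    · rw [if_neg h1, if_neg h3]; omega
    exfalso
    apply h1
    have e1 : w' + u + (w - w') = w + u := by abel
    have e2 : w' + (w - w') = w := by abel
    rw [e1] at h2
    rw [e2] at h3
    have h4 : f (w + u) - f (w' + u) = f w - f w' := by rw [h2, h3]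
    have : f (w + u) - f w - (f (w' + u) - f w') =
      (f (w + u) - f (w' + u)) - (f w - f w') := by abel
    rw [← sub_eq_zero, this, h4, sub_self]
  have s1 : ∑ w, ∑ w', (if f (w' + u + (w - w')) - f (w' + u) = plu f (w - w') then 0 else 1) =
      ∑ v, miss f v (plu f v) := by
    rw [sum_comm]
    calc ∑ w', ∑ w, (if f (w' + u + (w - w')) - f (w' + u) = plu f (w - w') then 0 else 1)
        = ∑ w', ∑ v, (if f (w' + u + v) - f (w' + u) = plu f v then 0 else 1) :=
          sum_congr rfl fun w' _ => Equiv.sum_comp (Equiv.subRight w')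
            (fun v => if f (w' + u + v) - f (w' + u) = plu f v then 0 else 1)
      _ = ∑ v, ∑ w', (if f (w' + u + v) - f (w' + u) = plu f v then 0 else 1) := sum_comm
      _ = ∑ v, miss f v (plu f v) := sum_congr rfl fun v _ => Equiv.sum_comp (Equiv.addRight u)
            (fun w => if f (w + v) - f w = plu f v then 0 else 1)
  have s2 : ∑ w, ∑ w', (if f (w' + (w - w')) - f w' = plu f (w - w') then 0 else 1) =
      ∑ v, miss f v (plu f v) := by
    rw [sum_comm]
    calc ∑ w', ∑ w, (if f (w' + (w - w')) - f w' = plu f (w - w') then 0 else 1)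
        = ∑ w', ∑ v, (if f (w' + v) - f w' = plu f v then 0 else 1) :=
          sum_congr rfl fun w' _ => Equiv.sum_comp (Equiv.subRight w')
            (fun v => if f (w' + v) - f w' = plu f v then 0 else 1)
      _ = ∑ v, miss f v (plu f v) := sum_comm
  have h3 := sum_miss_le f g h
  calc ∑ w, ∑ w', inc f u w w'
      ≤ ∑ w, ∑ w', ((if f (w' + u + (w - w')) - f (w' + u) = plu f (w - w') then 0 else 1) +
      (if f (w' + (w - w')) - f w' = plu f (w - w') then 0 else 1)) :=
        sum_le_sum fun w _ => sum_le_sum fun w' _ => hD w w'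
    _ = ∑ v, miss f v (plu f v) + ∑ v, miss f v (plu f v) := by
        simp only [sum_add_distrib]
        rw [s1, s2]
    _ ≤ 8 * ∑ x, ∑ y, vio f g h x y := by omega

theorem miss_le (f g h : M → A) (u : M) :
    Fintype.card M * miss f u (plu f u) ≤ 8 * ∑ x, ∑ y, vio f g h x y :=
  (plu_spec f u).trans (inc_direction_le f g h u)

theorem plu_add (f g h : M → A)
    (hV : 24 * ∑ x, ∑ y, vio f g h x y < Fintype.card M * Fintype.card M) (u v : M) :
    plu f (u + v) = plu f u + plu f v := by
  have hm : 0 < Fintype.card M := Fintype.card_pos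
  have h1 := miss_le f g h (u + v)
  have h2 := miss_le f g h u
  have h3 := miss_le f g h v
  by_contra hne
  have hpt : ∀ w, 1 ≤ (if f (w + (u + v)) - f w = plu f (u + v) then 0 else 1) +
      (if f (w + v + u) - f (w + v) = plu f u then 0 else 1) +
      (if f (w + v) - f w = plu f v then 0 else 1) := by
    intro w
    by_contra hcon
    split_ifs at hcon with a b c <;> try omega
    apply hne
    have e : w + v + u = w + (u + v) := by abel
    rw [e] at b
    rw [← a, ← b, ← c]
    abel
  have hs : ∑ w, (if f (w + v + u) - f (w + v) = plu f u then 0 else 1) = miss f u (plu f u) :=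
    Equiv.sum_comp (Equiv.addRight v) (fun w => if f (w + u) - f w = plu f u then 0 else 1)
  have hsum : Fintype.card M ≤ miss f (u + v) (plu f (u + v)) + miss f u (plu f u) +
      miss f v (plu f v) := by
    calc Fintype.card M = ∑ _w : M, 1 := by simp
      _ ≤ ∑ w, ((if f (w + (u + v)) - f w = plu f (u + v) then 0 else 1) +
          (if f (w + v + u) - f (w + v) = plu f u then 0 else 1) +
          (if f (w + v) - f w = plu f v then 0 else 1)) := sum_le_sum fun w _ => hpt w
      _ = _ := by
        simp only [sum_add_distrib]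
        rw [hs]
        rfl
  nlinarith

/-- **Linearity testing.** If `f (x + y) = g x + h y` fails for fewer than one in `24` of the
pairs, then `f` agrees with a translate of an additive map except on a set whose density is at
most four times the density of the failures. -/
theorem blr (f g h : M → A)
    (hV : 24 * ∑ x, ∑ y, vio f g h x y < Fintype.card M * Fintype.card M) :
    ∃ (ψ : M →+ A) (c : A), Fintype.card M * (univ.filter fun x => f x ≠ ψ x + c).card ≤
      4 * ∑ x, ∑ y, vio f g h x y := by
  have hm : 0 < Fintype.card M := Fintype.card_pos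
  let ψ : M →+ A :=
    { toFun := plu f
      map_zero' := by
        have := plu_add f g h hV 0 0
        rw [add_zero] at this
        exact left_eq_add.1 this
      map_add' := plu_add f g h hV }
  have hψ : ∀ x, ψ x = plu f x := fun _ => rfl
  obtain ⟨w0, _, hw0⟩ := Finset.exists_min_image (univ : Finset M)
    (fun w => ∑ u, if f (w + u) - f w = plu f u then 0 else 1) univ_nonempty
  refine ⟨ψ, f w0 - ψ w0, ?_⟩
  have h1 : Fintype.card M * (∑ u, if f (w0 + u) - f w0 = plu f u then 0 else 1) ≤
      ∑ u, miss f u (plu f u) := by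
    calc Fintype.card M * (∑ u, if f (w0 + u) - f w0 = plu f u then 0 else 1)
        = ∑ _w : M, ∑ u, (if f (w0 + u) - f w0 = plu f u then 0 else 1) := by
          rw [sum_const, card_univ, smul_eq_mul]
      _ ≤ ∑ w : M, ∑ u, (if f (w + u) - f w = plu f u then 0 else 1) :=
          sum_le_sum fun w _ => hw0 w (mem_univ _)
      _ = _ := sum_comm
  have h2 : (univ.filter fun x => f x ≠ ψ x + (f w0 - ψ w0)).card =
      ∑ u, if f (w0 + u) - f w0 = plu f u then 0 else 1 := by
    rw [card_filter]
    rw [← Equiv.sum_comp (Equiv.addLeft w0)]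
    refine sum_congr rfl fun u _ => ?_
    have e1 : ψ (w0 + u) = plu f w0 + plu f u := by rw [map_add]; rfl
    have : (f (w0 + u) ≠ ψ (w0 + u) + (f w0 - ψ w0)) ↔
        ¬ (f (w0 + u) - f w0 = plu f u) := by
      rw [not_iff_not, sub_eq_iff_eq_add, e1, hψ w0]
      constructor
      · intro h; rw [h]; abel
      · intro h; rw [h]; abel
    by_cases h : f (w0 + u) - f w0 = plu f u
    · rw [if_pos h]
      exact if_neg (fun h' => this.1 h' h)
    · rw [if_neg h]
      exact if_pos (this.2 h)
  rw [h2]
  exact h1.trans (sum_miss_le f g h)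

end BLR

end Pool.Agent.LTC
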