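import Pool.Agent.LTC.Defs

namespace Pool.Agent.LTC

section DoubleDual

variable {ι F : Type} [Fintype ι] [Field F]

theorem mem_dualCode {C : Submodule F (ι → F)} {u : ι → F} :
    u ∈ dualCode C ↔ ∀ c ∈ C, ∑ i, u i * c i = 0 := Iff.rfl

theorem dualCode_anti {C D : Submodule F (ι → F)} (h : C ≤ D) : dualCode D ≤ dualCode C :=
  fun _ hu c hc => hu c (h hc)

theorem le_dualCode_dualCode (C : Submodule F (ι → F)) : C ≤ dualCode (dualCode C) := by
  intro c hc u hu
  have := hu c hc
  simpa only [mul_comm] using this

theorem dualCode_dualCode (C : Submodule F (ι → F)) : dualCode (dualCode C) = C := by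
  classical
  refine le_antisymm ?_ (le_dualCode_dualCode C)
  intro x hx
  by_contra hxC
  obtain ⟨φ, hφx, hφC⟩ := Submodule.exists_le_ker_of_notMem (p := C) hxC
  have key : ∀ y : ι → F, φ y = ∑ i, φ (Pi.single i 1) * y i := by
    intro y
    conv_lhs => rw [← Finset.univ_sum_single y]
    rw [map_sum]
    refine Finset.sum_congr rfl fun i _ => ?_
    have : (Pi.single i (y i) : ι → F) = y i • Pi.single i 1 := by
      rw [← Pi.single_smul]; simp
    rw [this, map_smul, smul_eq_mul, mul_comm]
  apply hφx
  have hu : (fun i => φ (Pi.single i 1)) ∈ dualCode C := by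
    intro c hc
    rw [← key]
    exact hφC hc
  have := hx _ hu
  rw [key]
  simpa only [mul_comm] using this

/-- If a word is orthogonal to a set of dual words that spans the dual code, it is a codeword. -/
theorem mem_of_span_eq {C : Submodule F (ι → F)} {L : Set (ι → F)}
    (hL : Submodule.span F L = dualCode C) {f : ι → F} (hf : ∀ u ∈ L, ∑ i, u i * f i = 0) :
    f ∈ C := by
  rw [← dualCode_dualCode C, ← hL]
  intro u hu
  induction hu using Submodule.span_induction with
  | mem u hu => simpa only [mul_comm] using hf u hu
  | zero => simp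
  | add u v _ _ hu hv =>
    simp only [Pi.add_apply, mul_add, Finset.sum_add_distrib, hu, hv, add_zero]
  | smul a u _ hu =>
    have : ∀ i, f i * (a • u) i = a * (f i * u i) := by
      intro i; simp only [Pi.smul_apply, smul_eq_mul]; ring
    simp only [this, ← Finset.mul_sum, hu, mul_zero]

/-- Conversely, a subset of the dual code whose annihilator is contained in the code spans. -/
theorem span_eq_of_forall_mem {C : Submodule F (ι → F)} {L : Set (ι → F)}
    (hLC : L ⊆ dualCode C) (h : ∀ f : ι → F, (∀ u ∈ L, ∑ i, u i * f i = 0) → f ∈ C) :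
    Submodule.span F L = dualCode C := by
  refine le_antisymm (Submodule.span_le.2 hLC) ?_
  rw [← dualCode_dualCode (Submodule.span F L)]
  apply dualCode_anti
  intro f hf
  apply h
  intro u hu
  have := hf u (Submodule.subset_span hu)
  simpa only [mul_comm] using this

end DoubleDual

namespace DecisionTree

variable {ι F : Type}

/-- The set of coordinates read on the input `r`. -/
def queries [DecidableEq ι] : DecisionTree ι F → (ι → F) → Finset ι
  | leaf _, _ => ∅
  | read i next, r => insert i ((next (r i)).queries r)

variable [DecidableEq ι]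

theorem card_queries_le (T : DecisionTree ι F) (q : ℕ) (h : T.ReadsAtMost q) (r : ι → F) :
    (T.queries r).card ≤ q := by
  induction T generalizing q with
  | leaf b => simp [queries]
  | read i next ih =>
    cases q with
    | zero => exact absurd h (by simp [ReadsAtMost])
    | succ q =>
      simp only [ReadsAtMost] at h
      simp only [queries]
      exact (Finset.card_insert_le _ _).trans (Nat.succ_le_succ (ih (r i) q (h (r i))))

theorem queries_congr (T : DecisionTree ι F) (r r' : ι → F)
    (h : ∀ i ∈ T.queries r, r' i = r i) : T.queries r' = T.queries r := by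
  induction T with
  | leaf b => simp [queries]
  | read i next ih =>
    have hi : r' i = r i := h i (by simp [queries])
    simp only [queries, hi]
    rw [ih (r i)]
    intro j hj
    exact h j (by simp [queries, hj])

theorem run_congr (T : DecisionTree ι F) (r r' : ι → F)
    (h : ∀ i ∈ T.queries r, r' i = r i) : T.run r' = T.run r := by
  induction T with
  | leaf b => simp [run]
  | read i next ih =>
    have hi : r' i = r i := h i (by simp [queries])
    simp only [run, hi]
    apply ih (r i)
    intro j hj
    exact h j (by simp [queries, hj])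

end DecisionTree

section Adaptive

open Classical in
/-- Key counting fact for adaptive testers of linear codes: if a deterministic tree accepts all
codewords, then it rejects `c + r` for at most as many codewords `c` as there are codewords `c`
such that `r` is inconsistent with the code on the set of positions read on the input `c`. -/
theorem card_reject_le {ι F : Type} [Field F]
    (C : Submodule F (ι → F)) [Fintype C] (T : DecisionTree ι F)
    (hT : ∀ c ∈ C, T.run c = true) (r : ι → F) :
    (Finset.univ.filter fun c : C => T.run ((c : ι → F) + r) = false).card ≤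
      (Finset.univ.filter fun c : C =>
        ¬ ∃ d ∈ C, ∀ i ∈ T.queries (c : ι → F), d i = r i).card := by
  have h1 := Finset.card_filter_add_card_filter_not
    (s := (Finset.univ : Finset C)) (fun c : C => T.run ((c : ι → F) + r) = false)
  have h2 := Finset.card_filter_add_card_filter_not
    (s := (Finset.univ : Finset C))
    (fun c : C => ∃ d ∈ C, ∀ i ∈ T.queries (c : ι → F), d i = r i)
  have h3 : (Finset.univ.filter fun c : C =>
      ∃ d ∈ C, ∀ i ∈ T.queries (c : ι → F), d i = r i).card ≤
      (Finset.univ.filter fun c : C => ¬ T.run ((c : ι → F) + r) = false).card := by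
    let d : Finset ι → C := fun I =>
      if h : ∃ d ∈ C, ∀ i ∈ I, d i = r i then ⟨h.choose, h.choose_spec.1⟩ else 0
    have hd : ∀ I, (∃ d ∈ C, ∀ i ∈ I, d i = r i) → ∀ i ∈ I, (d I : ι → F) i = r i := by
      intro I h i hi
      simp only [d, dif_pos h]
      exact h.choose_spec.2 i hi
    have agree : ∀ c : C, (∃ d ∈ C, ∀ i ∈ T.queries (c : ι → F), d i = r i) →
        ∀ i ∈ T.queries (c : ι → F),
          (((c - d (T.queries (c : ι → F)) : C) : ι → F) + r) i = (c : ι → F) i := by
      intro c hc i hi
      have := hd _ hc i hi
      simp only [Submodule.coe_sub, Pi.add_apply, Pi.sub_apply, this]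
      ring
    refine Finset.card_le_card_of_injOn (fun c => c - d (T.queries (c : ι → F))) ?_ ?_
    · intro c hc
      simp only [Finset.coe_filter, Finset.mem_univ, true_and, Set.mem_ofPred_eq] at hc ⊢
      rw [T.run_congr _ _ (agree c hc), hT _ c.2]
      simp
    · intro c₁ hc₁ c₂ hc₂ h
      simp only [Finset.coe_filter, Finset.mem_univ, true_and, Set.mem_ofPred_eq] at hc₁ hc₂
      have e₁ := T.queries_congr _ _ (agree c₁ hc₁)
      have e₂ := T.queries_congr _ _ (agree c₂ hc₂)
      simp only at h
      rw [h, e₂] at e₁
      rw [e₁] at h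
      exact sub_left_injective h
  omega

open Classical in
theorem sum_rejectProb_le {ι F : Type} [Field F]
    (C : Submodule F (ι → F)) [Fintype C] (T : Tester ι F) (q : ℕ)
    (hq : ∀ ω, (T.tree ω).ReadsAtMost q) (hC : ∀ r ∈ C, T.rejectProb r = 0)
    (t : ℕ) (r : Fin t → ι → F)
    (hr : ∀ I : Finset ι, I.card ≤ q →
      ∃ S : Finset (Fin t), S.card ≤ q ∧ ∀ k, k ∉ S → ∃ d ∈ C, ∀ i ∈ I, d i = r k i) :
    ∑ k, ∑ c : C, T.rejectProb ((c : ι → F) + r k) ≤ (Fintype.card C : ℝ) * q := by
  let _ := T.fin
  have hacc : ∀ ω, T.prob ω ≠ 0 → ∀ c ∈ C, (T.tree ω).run c = true := by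
    intro ω hω c hc
    have h0 := hC c hc
    rw [Tester.rejectProb, Finset.sum_eq_zero_iff_of_nonneg] at h0
    · have := h0 ω (Finset.mem_univ ω)
      by_contra hrun
      rw [if_pos (by simpa using hrun)] at this
      exact hω this
    · intro ω _
      split_ifs
      · exact T.prob_nonneg ω
      · exact le_rfl
  have hcount : ∀ ω, T.prob ω ≠ 0 →
      ∑ k, (Finset.univ.filter fun c : C => (T.tree ω).run ((c : ι → F) + r k) = false).card ≤
        Fintype.card C * q := by
    intro ω hω
    calc ∑ k, (Finset.univ.filter fun c : C => (T.tree ω).run ((c : ι → F) + r k) = false).card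
        ≤ ∑ k, (Finset.univ.filter fun c : C =>
            ¬ ∃ d ∈ C, ∀ i ∈ (T.tree ω).queries (c : ι → F), d i = r k i).card :=
          Finset.sum_le_sum fun k _ => card_reject_le C (T.tree ω) (hacc ω hω) (r k)
      _ = ∑ c : C, (Finset.univ.filter fun k =>
            ¬ ∃ d ∈ C, ∀ i ∈ (T.tree ω).queries (c : ι → F), d i = r k i).card := by
          simp only [Finset.card_filter]
          exact Finset.sum_comm
      _ ≤ ∑ _c : C, q := Finset.sum_le_sum fun c _ => by
          obtain ⟨S, hS, hmem⟩ := hr _ ((T.tree ω).card_queries_le q (hq ω) (c : ι → F))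
          refine (Finset.card_le_card fun k hk => ?_).trans hS
          by_contra hkS
          exact (Finset.mem_filter.1 hk).2 (hmem k hkS)
      _ = Fintype.card C * q := by simp
  calc ∑ k, ∑ c : C, T.rejectProb ((c : ι → F) + r k)
      = ∑ ω, ∑ k, ∑ c : C,
          (if (T.tree ω).run ((c : ι → F) + r k) = false then T.prob ω else 0) := by
        simp only [Tester.rejectProb]
        have e : ∀ k : Fin t, ∑ c : C, ∑ ω,
            (if (T.tree ω).run ((c : ι → F) + r k) = false then T.prob ω else 0) =
            ∑ ω, ∑ c : C,
            (if (T.tree ω).run ((c : ι → F) + r k) = false then T.prob ω else 0) :=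
          fun k => Finset.sum_comm
        simp only [e]
        exact Finset.sum_comm
    _ = ∑ ω, T.prob ω * (∑ k, ((Finset.univ.filter fun c : C =>
          (T.tree ω).run ((c : ι → F) + r k) = false).card : ℝ)) := by
        refine Finset.sum_congr rfl fun ω _ => ?_
        rw [Finset.mul_sum]
        refine Finset.sum_congr rfl fun k _ => ?_
        rw [← Finset.sum_filter, Finset.sum_const, nsmul_eq_mul, mul_comm]
    _ ≤ ∑ ω, T.prob ω * ((Fintype.card C : ℝ) * q) := by
        refine Finset.sum_le_sum fun ω _ => ?_
        by_cases hω : T.prob ω = 0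
        · simp [hω]
        · refine mul_le_mul_of_nonneg_left ?_ (T.prob_nonneg ω)
          exact_mod_cast hcount ω hω
    _ = (Fintype.card C : ℝ) * q := by
        rw [← Finset.sum_mul, T.prob_sum, one_mul]

end Adaptive

end Pool.Agent.LTC
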