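import Pool.Agent.LTC.Frob

namespace Pool.Agent.LTC

variable {t : ℕ} {n e : Fin t → ℕ} {K : Type} [Field K]

section Comp

variable {α β : Type}

theorem comp_mem_box (v : α → K) (S : Finset (Fin t)) (f : β → α) {w : α → K}
    (hw : w ∈ box n v S) : (fun b => w (f b)) ∈ box n (fun b => v (f b)) S := by
  induction hw using Submodule.span_induction with
  | mem w hw =>
    rcases hw with rfl | ⟨j, hj, rfl⟩
    · exact one_mem_box _ _
    · exact pow_mem_box (fun b => v (f b)) hj
  | zero => exact Submodule.zero_mem _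
  | add w w' _ _ h h' => exact Submodule.add_mem _ h h'
  | smul c w _ h => exact Submodule.smul_mem _ c h

theorem exists_of_mem_box_comp (v : α → K) (S : Finset (Fin t)) (f : β → α) {w : β → K}
    (hw : w ∈ box n (fun b => v (f b)) S) : ∃ d ∈ box n v S, ∀ b, d (f b) = w b := by
  induction hw using Submodule.span_induction with
  | mem w hw =>
    rcases hw with rfl | ⟨j, hj, rfl⟩
    · exact ⟨_, one_mem_box _ _, fun _ => rfl⟩
    · exact ⟨_, pow_mem_box v hj, fun _ => rfl⟩
  | zero => exact ⟨0, Submodule.zero_mem _, fun _ => rfl⟩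
  | add w w' _ _ h h' =>
    obtain ⟨d, hd, h⟩ := h
    obtain ⟨d', hd', h'⟩ := h'
    exact ⟨d + d', Submodule.add_mem _ hd hd', fun b => by simp [h, h']⟩
  | smul c w _ h =>
    obtain ⟨d, hd, h⟩ := h
    exact ⟨c • d, Submodule.smul_mem _ c hd, fun b => by simp [h]⟩

end Comp

/-- The box code: the `K`-span of the constant word and of the words `x ^ (2 ^ j)` where the
residue of `j` modulo each `n i` is `0` or `1`; the positions are identified with the elements of
`K`. -/
def boxCode {ι : Type} (n : Fin t → ℕ) (ε : ι ≃ K) : Submodule K (ι → K) :=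
  box n (fun i => ε i) Finset.univ

variable [CharP K 2]

theorem box_add (c : K → K) (hc : c ∈ box n (fun x : K => x) Finset.univ) (x y : K) :
    c (x + y) = c x + c y - c 0 := by
  have : Fact (Nat.Prime 2) := ⟨Nat.prime_two⟩
  induction hc using Submodule.span_induction with
  | mem w hw =>
    rcases hw with rfl | ⟨j, hj, rfl⟩
    · ring
    · have : (x + y) ^ 2 ^ j = x ^ 2 ^ j + y ^ 2 ^ j := add_pow_char_pow ..
      simp only [this]
      have h0 : (0 : K) ^ 2 ^ j = 0 := by
        rw [zero_pow]; positivity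
      rw [h0, sub_zero]
  | zero => simp
  | add w w' _ _ h h' =>
    simp only [Pi.add_apply, h, h']
    ring
  | smul c w _ h =>
    simp only [Pi.smul_apply, smul_eq_mul, h]
    ring

section Finite

variable [Fintype K] [Algebra (ZMod 2) K]

omit [CharP K 2] in
theorem frob_notMem_box (he : IsCRT n e) (hN : Module.finrank (ZMod 2) K = ∏ i, n i)
    (k : Fin t) :
    (fun x : K => x ^ 2 ^ (2 * e k)) ∉ box n (fun x : K => x) Finset.univ := by
  have hli := linearIndependent_monoidHom K K
  set A : Set (K →* K) := insert 1 {f | ∃ j ∈ expSet n Finset.univ, f = powMonoidHom (2 ^ j)}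
    with hA
  have himg : (fun f : K →* K => (f : K → K)) '' A =
      insert (fun _ => 1)
        {w | ∃ j ∈ expSet n (Finset.univ : Finset (Fin t)), w = fun x : K => x ^ 2 ^ j} := by
    ext w
    constructor
    · rintro ⟨f, hf, rfl⟩
      rcases hf with rfl | ⟨j, hj, rfl⟩
      · left; rfl
      · right; exact ⟨j, hj, rfl⟩
    · rintro (rfl | ⟨j, hj, rfl⟩)
      · exact ⟨1, Set.mem_insert _ _, rfl⟩
      · exact ⟨powMonoidHom (2 ^ j), Set.mem_insert_of_mem _ ⟨j, hj, rfl⟩, rfl⟩
  have hnot : (powMonoidHom (2 ^ (2 * e k)) : K →* K) ∉ A := by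
    rintro (h | ⟨j, hj, h⟩)
    · have := DFunLike.congr_fun h 0
      simp at this
    · have h1 : ∀ x : K, x ^ 2 ^ (2 * e k) = x ^ 2 ^ j := fun x => DFunLike.congr_fun h x
      have h2 := frob_modEq K h1
      rw [hN] at h2
      have h3 : 2 * e k ≡ j [MOD n k] := h2.of_dvd (Finset.dvd_prod_of_mem n (Finset.mem_univ k))
      have h4 := he.three_le k
      have h5 := he.one k
      have h6 := hj.1 k (Finset.mem_univ k)
      have h7 : (2 * e k) % n k = 2 := by
        rw [Nat.mul_mod, h5, mul_one, Nat.mod_mod, Nat.mod_eq_of_lt (by omega)]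
      rw [Nat.ModEq, h7] at h3
      omega
  have := hli.notMem_span_image hnot
  rw [himg] at this
  exact this

variable {ι : Type} [Fintype ι] (ε : ι ≃ K)

theorem two_mul_agree_le [DecidableEq K] (he : IsCRT n e) (hN : Module.finrank (ZMod 2) K = ∏ i, n i)
    (k : Fin t) (c : ι → K) (hc : c ∈ boxCode n ε) :
    2 * (Finset.univ.filter fun i => ε i ^ 2 ^ (2 * e k) = c i).card ≤ Fintype.card ι := by
  have : Fact (Nat.Prime 2) := ⟨Nat.prime_two⟩
  set c' : K → K := fun x => c (ε.symm x) with hc'
  have hc'mem : c' ∈ box n (fun x : K => x) Finset.univ := by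
    have := comp_mem_box (n := n) (fun i => ε i) Finset.univ (fun x : K => ε.symm x) hc
    simpa using this
  set g : K → K := fun x => x ^ 2 ^ (2 * e k) - c' x with hg
  have hgadd : ∀ x y, g (x + y) = g x + g y - g 0 := by
    intro x y
    have h1 : (x + y) ^ 2 ^ (2 * e k) = x ^ 2 ^ (2 * e k) + y ^ 2 ^ (2 * e k) :=
      add_pow_char_pow ..
    have h0 : (0 : K) ^ 2 ^ (2 * e k) = 0 := by
      rw [zero_pow]; positivity
    simp only [hg, h1, h0, box_add c' hc'mem x y]
    ring
  have hx0 : ∃ x0, g x0 ≠ g 0 := by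
    by_contra hcon
    push Not at hcon
    apply frob_notMem_box he hN k
    have : (fun x : K => x ^ 2 ^ (2 * e k)) = c' + g 0 • fun _ => 1 := by
      funext x
      have := hcon x
      simp only [Pi.add_apply, Pi.smul_apply, smul_eq_mul, mul_one]
      rw [← this]
      simp [hg]
    rw [this]
    exact Submodule.add_mem _ hc'mem (Submodule.smul_mem _ _ (one_mem_box _ _))
  obtain ⟨x0, hx0⟩ := hx0
  have hinj : (Finset.univ.filter fun i => ε i ^ 2 ^ (2 * e k) = c i).card ≤
      (Finset.univ.filter fun i => ¬ ε i ^ 2 ^ (2 * e k) = c i).card := by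
    refine Finset.card_le_card_of_injOn (fun i => ε.symm (ε i + x0)) ?_ ?_
    · intro i hi
      simp only [Finset.coe_filter, Finset.mem_univ, true_and, Set.mem_ofPred_eq] at hi ⊢
      intro hcon
      apply hx0
      have h1 : g (ε i) = 0 := by simp [hg, hc', hi]
      have h2 : g (ε i + x0) = 0 := by
        simp only [Equiv.apply_symm_apply] at hcon
        simp [hg, hc', hcon]
      rw [hgadd, h1] at h2
      linear_combination h2
    · intro i _ j _ hij
      simpa using hij
  have htot := Finset.card_filter_add_card_filter_not (s := (Finset.univ : Finset ι))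
    (fun i => ε i ^ 2 ^ (2 * e k) = c i)
  rw [Finset.card_univ] at htot
  omega

theorem half_le_relDist [DecidableEq K] (he : IsCRT n e) (hN : Module.finrank (ZMod 2) K = ∏ i, n i)
    (k : Fin t) (c : ι → K) (hc : c ∈ boxCode n ε) :
    (1 / 2 : ℝ) ≤ relDist (boxCode n ε) (c + fun i => ε i ^ 2 ^ (2 * e k)) := by
  classical
  obtain ⟨d, hd, h⟩ := exists_relDist (boxCode n ε) (c + fun i => ε i ^ 2 ^ (2 * e k))
  rw [h]
  have hcard : (0 : ℝ) < Fintype.card ι := by
    have : Nonempty ι := ⟨ε.symm 0⟩
    exact_mod_cast Fintype.card_pos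
  rw [div_le_div_iff₀ (by norm_num) hcard]
  have h1 := two_mul_agree_le ε he hN k (d - c) (Submodule.sub_mem _ hd hc)
  have h2 : hammingDist (c + fun i => ε i ^ 2 ^ (2 * e k)) d =
      (Finset.univ.filter fun i => ¬ ε i ^ 2 ^ (2 * e k) = (d - c) i).card := by
    unfold hammingDist
    congr 1
    ext i
    simp only [Finset.mem_filter, Finset.mem_univ, true_and, Pi.add_apply, Pi.sub_apply, ne_eq,
      eq_sub_iff_add_eq]
    rw [add_comm]
  have htot := Finset.card_filter_add_card_filter_not (s := (Finset.univ : Finset ι))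
    (fun i => ε i ^ 2 ^ (2 * e k) = (d - c) i)
  rw [Finset.card_univ] at htot
  rw [h2]
  have : Fintype.card ι ≤ 2 * (Finset.univ.filter fun i =>
    ¬ ε i ^ 2 ^ (2 * e k) = (d - c) i).card := by omega
  have h3 : (Fintype.card ι : ℝ) ≤ 2 * ((Finset.univ.filter fun i =>
    ¬ ε i ^ 2 ^ (2 * e k) = (d - c) i).card : ℝ) := by exact_mod_cast this
  linarith

omit [Algebra (ZMod 2) K] [Fintype ι] [Fintype K] in
theorem exists_inconsistent (he : IsCRT n e) (q : ℕ) (I : Finset ι) (hI : I.card ≤ q) :
    ∃ S : Finset (Fin t), S.card ≤ q ∧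
      ∀ k, k ∉ S → ∃ d ∈ boxCode n ε, ∀ i ∈ I, d i = ε i ^ 2 ^ (2 * e k) := by
  obtain ⟨S, hS, hmem⟩ := exists_small_set he (fun i : I => ε i)
  rw [Fintype.card_coe] at hS
  refine ⟨S, hS.trans hI, fun k hkS => ?_⟩
  obtain ⟨d, hd, h⟩ := exists_of_mem_box_comp (fun i : ι => ε i) Finset.univ
    (fun i : I => (i : ι)) (hmem k hkS)
  exact ⟨d, hd, fun i hi => h ⟨i, hi⟩⟩

/-- The box code is not locally testable with few queries and large soundness. -/
theorem boxCode_not_locallyTestable [DecidableEq K] (he : IsCRT n e)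
    (hN : Module.finrank (ZMod 2) K = ∏ i, n i) (q : ℕ) (s : ℝ) (hs : 0 < s)
    (ht : 2 * (q : ℝ) < s * t) : ¬ LocallyTestable (boxCode n ε) q s := by
  exact not_locallyTestable_of_family (boxCode n ε) q s hs t
    (fun k i => ε i ^ 2 ^ (2 * e k)) (fun k c hc => half_le_relDist ε he hN k c hc)
    (fun I hI => exists_inconsistent ε he q I hI) ht

omit [CharP K 2] [Algebra (ZMod 2) K] [Fintype K] [Fintype ι] in
theorem boxCode_doublyTransitive [CharP K 2] : DoublyTransitiveCode (boxCode n ε) := by
  have : Fact (Nat.Prime 2) := ⟨Nat.prime_two⟩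
  let G : Subgroup (Equiv.Perm ι) :=
    { carrier := {π | ∃ a b : K, a ≠ 0 ∧ ∀ i, ε (π i) = a * ε i + b}
      mul_mem' := by
        rintro π ρ ⟨a, b, ha, h⟩ ⟨a', b', ha', h'⟩
        refine ⟨a * a', a * b' + b, mul_ne_zero ha ha', fun i => ?_⟩
        rw [Equiv.Perm.mul_apply, h, h']
        ring
      one_mem' := ⟨1, 0, one_ne_zero, fun i => by simp⟩
      inv_mem' := by
        rintro π ⟨a, b, ha, h⟩
        refine ⟨a⁻¹, -(a⁻¹ * b), inv_ne_zero ha, fun i => ?_⟩
        have h1 := h (π⁻¹ i)
        have h2 : π (π⁻¹ i) = i := π.apply_symm_apply i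
        rw [h2] at h1
        rw [h1]
        field_simp
        ring }
  refine ⟨G, ?_, ?_⟩
  · rintro π ⟨a, b, ha, h⟩ w hw
    induction hw using Submodule.span_induction with
    | mem w hw =>
      rcases hw with rfl | ⟨j, hj, rfl⟩
      · exact one_mem_box _ _
      · have h1 : (fun i => ε (π i) ^ 2 ^ j) =
            (a ^ 2 ^ j) • (fun i => ε i ^ 2 ^ j) + (b ^ 2 ^ j) • fun _ => (1 : K) := by
          funext i
          simp only [h, Pi.add_apply, Pi.smul_apply, smul_eq_mul, mul_one]
          rw [← mul_pow]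
          exact add_pow_char_pow ..
        simp only [h1]
        exact Submodule.add_mem _ (Submodule.smul_mem _ _ (pow_mem_box _ hj))
          (Submodule.smul_mem _ _ (one_mem_box _ _))
    | zero => exact Submodule.zero_mem _
    | add w w' _ _ h h' => exact Submodule.add_mem _ h h'
    | smul c w _ h => exact Submodule.smul_mem _ c h
  · intro i j i' j' hij hij'
    have hx : ε i - ε j ≠ 0 := sub_ne_zero.2 (ε.injective.ne hij)
    have hx' : ε i' - ε j' ≠ 0 := sub_ne_zero.2 (ε.injective.ne hij')
    set a := (ε i' - ε j') / (ε i - ε j) with ha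
    have ha0 : a ≠ 0 := div_ne_zero hx' hx
    let π : Equiv.Perm ι :=
      { toFun := fun l => ε.symm (a * ε l + (ε i' - a * ε i))
        invFun := fun l => ε.symm (a⁻¹ * (ε l - (ε i' - a * ε i)))
        left_inv := by
          intro l
          simp only [Equiv.apply_symm_apply]
          rw [add_sub_cancel_right, inv_mul_cancel_left₀ ha0, Equiv.symm_apply_apply]
        right_inv := by
          intro l
          simp only [Equiv.apply_symm_apply]
          rw [mul_inv_cancel_left₀ ha0, sub_add_cancel, Equiv.symm_apply_apply] }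
    refine ⟨π, ⟨a, ε i' - a * ε i, ha0, fun l => ?_⟩, ?_, ?_⟩
    · simp [π]
    · apply ε.injective
      simp [π]
    · apply ε.injective
      simp only [π, Equiv.coe_fn_mk, Equiv.apply_symm_apply]
      have : a * (ε i - ε j) = ε i' - ε j' := by rw [ha, div_mul_cancel₀ _ hx]
      linear_combination -this

end Finite

end Pool.Agent.LTC
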