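import Pool.Agent.LTC.Box

namespace Pool.Agent.LTC

variable {t : ℕ} {n e : Fin t → ℕ} {K : Type} [Field K] [CharP K 2]
  [Fintype K] [Algebra (ZMod 2) K] {ι : Type} [Fintype ι] (ε : ι ≃ K)

omit [Fintype K] [Algebra (ZMod 2) K] in
theorem additive_word_mem [DecidableEq K] (x y : K) :
    word ![ε.symm (x + y), ε.symm x, ε.symm y, ε.symm 0] ![1, -1, -1, 1] ∈
      lowWeightDual (boxCode n ε) 4 := by
  refine ⟨?_, hammingNorm_word_le _ _⟩
  intro c hc
  rw [sum_word_mul]
  have hc' := comp_mem_box (n := n) (fun i => ε i) Finset.univ (fun x : K => ε.symm x) hc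
  simp only [Equiv.apply_symm_apply] at hc'
  have := box_add _ hc' x y
  simp only [Fin.sum_univ_four, Matrix.cons_val_zero, Matrix.cons_val_one, Matrix.cons_val]
  linear_combination this

section Sub

variable {E : Type} [Field E] [Finite E] [Algebra (ZMod 2) E] (φ : E →ₐ[ZMod 2] K)

/-- The coefficients of the collinearity words. -/
def coeffs (l m : K) : Fin 4 → K :=
  ![(m ^ 2 * l - l ^ 2 * m) - (m ^ 2 - m) + (l ^ 2 - l), -(m ^ 2 * l - l ^ 2 * m), m ^ 2 - m,
    -(l ^ 2 - l)]

omit [CharP K 2] [Fintype K] in
theorem coeffs_pow (i : Fin t) (hE : Module.finrank (ZMod 2) E = n i) (a b : E) {j : ℕ}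
    (hj : j % n i = 0 ∨ j % n i = 1) :
    coeffs (φ a) (φ b) 1 + coeffs (φ a) (φ b) 2 * φ a ^ 2 ^ j +
      coeffs (φ a) (φ b) 3 * φ b ^ 2 ^ j = 0 := by
  have h1 : φ a ^ 2 ^ j = φ a ^ 2 ^ (j % n i) := by
    rw [← map_pow, ← map_pow, ← hE, pow_mod_eq]
  have h2 : φ b ^ 2 ^ j = φ b ^ 2 ^ (j % n i) := by
    rw [← map_pow, ← map_pow, ← hE, pow_mod_eq]
  rw [h1, h2]
  simp only [coeffs, Matrix.cons_val_one, Matrix.cons_val]
  rcases hj with h | h <;> rw [h]
  · simp only [pow_zero, pow_one]
    ring
  · simp only [pow_one]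
    ring

theorem collinear_word_mem [DecidableEq K] (i : Fin t) (hE : Module.finrank (ZMod 2) E = n i)
    (a b : E) (x : K) :
    word ![ε.symm 0, ε.symm x, ε.symm (φ a * x), ε.symm (φ b * x)] (coeffs (φ a) (φ b)) ∈
      lowWeightDual (boxCode n ε) 4 := by
  refine ⟨?_, hammingNorm_word_le _ _⟩
  intro c hc
  rw [sum_word_mul]
  have hc' := comp_mem_box (n := n) (fun i => ε i) Finset.univ (fun x : K => ε.symm x) hc
  simp only [Equiv.apply_symm_apply] at hc'
  simp only [Fin.sum_univ_four, Matrix.cons_val_zero, Matrix.cons_val_one, Matrix.cons_val]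
  have key : ∀ w : K → K, w ∈ box n (fun x : K => x) Finset.univ →
      coeffs (φ a) (φ b) 0 * w 0 + coeffs (φ a) (φ b) 1 * w x +
      coeffs (φ a) (φ b) 2 * w (φ a * x) + coeffs (φ a) (φ b) 3 * w (φ b * x) = 0 := by
    intro w hw
    induction hw using Submodule.span_induction with
    | mem w hw =>
      rcases hw with rfl | ⟨j, hj, rfl⟩
      · simp only [coeffs, Matrix.cons_val_zero, Matrix.cons_val_one, Matrix.cons_val]
        ring
      · have h := coeffs_pow φ i hE a b (hj.1 i (Finset.mem_univ i))
        have h0 : (0 : K) ^ 2 ^ j = 0 := by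
          rw [zero_pow]; positivity
        simp only [h0, mul_pow]
        linear_combination (x ^ 2 ^ j) * h
    | zero => simp
    | add w w' _ _ h h' =>
      simp only [Pi.add_apply]
      linear_combination h + h'
    | smul d w _ h =>
      simp only [Pi.smul_apply, smul_eq_mul]
      linear_combination d * h
  exact key _ hc'

end Sub

/-- The dual of the box code is spanned by dual words of weight at most `4`. -/
theorem boxCode_span [DecidableEq K] (hn : ∀ i, 3 ≤ n i)
    (hN : Module.finrank (ZMod 2) K = ∏ i, n i) :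
    Submodule.span K (lowWeightDual (boxCode n ε) 4) = dualCode (boxCode n ε) := by
  refine span_eq_of_forall_mem (fun u hu => hu.1) ?_
  intro f hf
  set f' : K → K := fun x => f (ε.symm x) with hf'
  -- additivity
  have hadd : ∀ x y, f' (x + y) = f' x + f' y - f' 0 := by
    intro x y
    have := hf _ (additive_word_mem (n := n) ε x y)
    rw [sum_word_mul] at this
    simp only [Fin.sum_univ_four, Matrix.cons_val_zero, Matrix.cons_val_one, Matrix.cons_val]
      at this
    simp only [hf']
    linear_combination this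
  let l : K →+ K :=
    { toFun := fun x => f' x - f' 0
      map_zero' := by simp
      map_add' := by
        intro x y
        rw [hadd]
        ring }
  have hl : ∀ x, l x = f' x - f' 0 := fun x => rfl
  obtain ⟨c, hc⟩ := exists_coeff K l
  -- the support of `c`
  have hsupp : ∀ j : Fin (Module.finrank (ZMod 2) K), c j ≠ 0 →
      ∀ i, (j : ℕ) % n i = 0 ∨ (j : ℕ) % n i = 1 := by
    intro j hcj i
    have : Fact (Nat.Prime 2) := ⟨Nat.prime_two⟩
    have hni : n i ≠ 0 := by have := hn i; omega
    have hE : Module.finrank (ZMod 2) (GaloisField 2 (n i)) = n i := GaloisField.finrank 2 hni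
    have hdvd : Module.finrank (ZMod 2) (GaloisField 2 (n i)) ∣ Module.finrank (ZMod 2) K := by
      rw [hE, hN]
      exact Finset.dvd_prod_of_mem n (Finset.mem_univ i)
    obtain ⟨φ⟩ := FiniteField.nonempty_algHom_of_finrank_dvd hdvd
    have := mod_eq_zero_or_one (GaloisField 2 (n i)) (j : ℕ) (by rw [hE]; exact hn i) ?_
    · rwa [hE] at this
    · intro a b
      have hzero : ∀ x : K, ∑ j : Fin (Module.finrank (ZMod 2) K),
          (c j * (coeffs (φ a) (φ b) 1 + coeffs (φ a) (φ b) 2 * φ a ^ 2 ^ (j : ℕ) +
            coeffs (φ a) (φ b) 3 * φ b ^ 2 ^ (j : ℕ))) * x ^ 2 ^ (j : ℕ) = 0 := by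
        intro x
        have h1 := hf _ (collinear_word_mem ε φ i hE a b x)
        rw [sum_word_mul] at h1
        simp only [Fin.sum_univ_four, Matrix.cons_val_zero, Matrix.cons_val_one,
          Matrix.cons_val] at h1
        have e0 : coeffs (φ a) (φ b) 0 =
            -(coeffs (φ a) (φ b) 1 + coeffs (φ a) (φ b) 2 + coeffs (φ a) (φ b) 3) := by
          simp only [coeffs, Matrix.cons_val_zero, Matrix.cons_val_one, Matrix.cons_val]
          ring
        have h2 : coeffs (φ a) (φ b) 1 * l x + coeffs (φ a) (φ b) 2 * l (φ a * x) +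
            coeffs (φ a) (φ b) 3 * l (φ b * x) = 0 := by
          simp only [hl, hf']
          rw [e0] at h1
          linear_combination h1
        rw [hc, hc, hc, Finset.mul_sum, Finset.mul_sum, Finset.mul_sum,
          ← Finset.sum_add_distrib, ← Finset.sum_add_distrib] at h2
        rw [← h2]
        refine Finset.sum_congr rfl fun j _ => ?_
        rw [mul_pow, mul_pow]
        ring
      have hli := linearIndependent_powFun K
      rw [Fintype.linearIndependent_iff] at hli
      have h3 := hli (fun j => c j * (coeffs (φ a) (φ b) 1 +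
        coeffs (φ a) (φ b) 2 * φ a ^ 2 ^ (j : ℕ) +
            coeffs (φ a) (φ b) 3 * φ b ^ 2 ^ (j : ℕ))) (by
          funext x
          simpa [Finset.sum_apply] using hzero x) j
      have h4 := (mul_eq_zero.1 h3).resolve_left hcj
      apply φ.injective
      simp only [map_mul, map_sub, map_pow]
      simp only [coeffs, Matrix.cons_val_one, Matrix.cons_val] at h4
      linear_combination h4
  -- conclusion
  have hfmem : f' ∈ box n (fun x : K => x) Finset.univ := by
    have hfeq : f' = (∑ j : Fin (Module.finrank (ZMod 2) K), c j • fun x : K => x ^ 2 ^ (j : ℕ)) +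
        f' 0 • fun _ => 1 := by
      funext x
      have := hc x
      rw [hl] at this
      simp only [Pi.add_apply, Finset.sum_apply, Pi.smul_apply, smul_eq_mul, mul_one]
      rw [← this]
      ring
    rw [hfeq]
    refine Submodule.add_mem _ (Submodule.sum_mem _ fun j _ => ?_)
      (Submodule.smul_mem _ _ (one_mem_box _ _))
    by_cases hcj : c j = 0
    · rw [hcj, zero_smul]
      exact Submodule.zero_mem _
    · exact Submodule.smul_mem _ _ (pow_mem_box _ ⟨fun i _ => hsupp j hcj i,
        fun i hi => absurd (Finset.mem_univ i) hi⟩)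
  have := comp_mem_box (n := n) (fun x : K => x) Finset.univ (fun i : ι => ε i) hfmem
  simpa [boxCode, hf'] using this

/-- For every number of queries and every soundness there is a doubly transitive code, with dual
spanned by words of weight at most `4`, that is not locally testable. -/
theorem exists_not_locallyTestable (q : ℕ) (s : ℝ) (hs : 0 < s) :
    ∃ (F : Type) (_ : Field F) (_ : Fintype F) (_ : DecidableEq F) (n : ℕ)
      (C : Submodule F (Fin n → F)), DoublyTransitiveCode C ∧
        Submodule.span F (lowWeightDual C 4) = dualCode C ∧ ¬ LocallyTestable C q s := by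
  classical
  have : Fact (Nat.Prime 2) := ⟨Nat.prime_two⟩
  obtain ⟨t, ht⟩ := exists_nat_gt (2 * (q : ℝ) / s)
  have ht' : 2 * (q : ℝ) < s * t := by
    rw [div_lt_iff₀ hs] at ht
    linarith
  -- pairwise coprime numbers
  let n : Fin t → ℕ := fun i => Nat.fermatNumber i
  have hn : ∀ i, 3 ≤ n i := fun i => Nat.three_le_fermatNumber i
  have hcop : Pairwise (Function.onFun Nat.Coprime n) := by
    intro i j hij
    exact Nat.coprime_fermatNumber_fermatNumber (fun h => hij (Fin.ext h))
  have hCRT : ∀ i : Fin t, ∃ m : ℕ, m % n i = 1 ∧ ∀ l, l ≠ i → m % n l = 0 := by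
    intro i
    obtain ⟨m, hm⟩ := (Nat.chineseRemainderOfFinset (fun l => if l = i then 1 else 0) n
      Finset.univ (fun l _ => by have := hn l; omega) (fun a _ b _ hab => hcop hab))
    refine ⟨m, ?_, fun l hl => ?_⟩
    · have h := hm i (Finset.mem_univ i)
      rw [if_pos rfl, Nat.ModEq] at h
      rw [h, Nat.mod_eq_of_lt]
      have := hn i; omega
    · have h := hm l (Finset.mem_univ l)
      rw [if_neg hl, Nat.ModEq] at h
      rw [h, Nat.zero_mod]
  choose e he1 he0 using hCRT
  have he : IsCRT n e := ⟨hn, he1, he0⟩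
  have hprod : (∏ i, n i) ≠ 0 := Finset.prod_ne_zero_iff.2 fun i _ => by have := hn i; omega
  let K := GaloisField 2 (∏ i, n i)
  have hN : Module.finrank (ZMod 2) K = ∏ i, n i := GaloisField.finrank 2 hprod
  let _ : Fintype K := Fintype.ofFinite K
  let ε : Fin (Fintype.card K) ≃ K := (Fintype.equivFin K).symm
  exact ⟨K, inferInstance, inferInstance, Classical.decEq K, Fintype.card K, boxCode n ε,
    boxCode_doublyTransitive ε, boxCode_span ε hn hN,
    boxCode_not_locallyTestable ε he hN q s hs ht'⟩

end Pool.Agent.LTC
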