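import Mathlib

/-!
# Classification of the coefficient sets of lines with a sharply two-transitive linear group
-/

namespace Pool.Agent.LTC

variable {F : Type} [Field F]

/-- Axioms of the coefficient set of a line. -/
structure IsLineSet (L : Set (F × F)) : Prop where
  e1 : ((1 : F), (0 : F)) ∈ L
  e2 : ((0 : F), (1 : F)) ∈ L
  indep : ∀ l ∈ L, ∀ m ∈ L, l ≠ m → l.1 * m.2 - l.2 * m.1 ≠ 0
  change : ∀ l ∈ L, ∀ m ∈ L, l ≠ m → ∀ x y : F,
    (x, y) ∈ L ↔ (x * l.1 + y * m.1, x * l.2 + y * m.2) ∈ L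

namespace IsLineSet

variable {L : Set (F × F)} (h : IsLineSet L)
include h

theorem symm (x y : F) : (x, y) ∈ L ↔ (y, x) ∈ L := by
  have := h.change _ h.e2 _ h.e1 (by simp) x y
  simpa using this

theorem snd_ne_zero {a b : F} (hm : (a, b) ∈ L) (hne : (a, b) ≠ (1, 0)) : b ≠ 0 := by
  have := h.indep _ h.e1 _ hm hne.symm
  simpa using this

theorem fst_ne_zero {a b : F} (hm : (a, b) ∈ L) (hne : (a, b) ≠ (0, 1)) : a ≠ 0 := by
  have := h.indep _ h.e2 _ hm hne.symm
  simpa using this

theorem ne_e1_of_snd {a b : F} (hb : b ≠ 0) : (a, b) ≠ ((1 : F), (0 : F)) := by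
  intro h'
  exact hb (Prod.mk.inj h').2

theorem mul_iff {a b : F} (hm : (a, b) ∈ L) (hb : b ≠ 0) (x y : F) :
    (x, y) ∈ L ↔ (x + a * y, b * y) ∈ L := by
  have := h.change _ h.e1 _ hm (h.ne_e1_of_snd hb).symm x y
  rw [this]
  simp only [mul_one, mul_zero, zero_add]
  rw [mul_comm y a, mul_comm y b]

/-- Dependent members of the line set are equal. -/
theorem eq_of_dep {a b c d : F} (h1 : (a, b) ∈ L) (h2 : (c, d) ∈ L) (hd : a * d - b * c = 0) :
    (a, b) = (c, d) := by
  by_contra hne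
  exact h.indep _ h1 _ h2 hne hd

theorem classify_unipotent {a : F} (ha : a ≠ 0) (hm : (a, 1) ∈ L) :
    (3 : F) ≠ 0 ∧ L = {(1, 0), (0, 1), (-1, -1)} := by
  have hM := h.mul_iff hm one_ne_zero
  have hneg : (-a, 1) ∈ L := by
    rw [hM]
    simpa using h.e2
  by_cases h2 : (2 : F) = 0
  · -- characteristic two
    have hdouble : ∀ x : F, x + x = 0 := fun x => by
      rw [← two_mul, h2, zero_mul]
    have hdiag : ∀ b : F, b ≠ 0 → (b, 1) ∈ L → (b⁻¹, b⁻¹) ∈ L := by
      intro b hb hbm
      rw [h.change _ hbm _ h.e2 (by intro h'; exact hb (Prod.mk.inj h').1)]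
      simp only [mul_one, mul_zero, add_zero]
      rw [inv_mul_cancel₀ hb, hdouble]
      exact h.e1
    have huniq : ∀ b : F, b ≠ 0 → (b, 1) ∈ L → b = a := by
      intro b hb hbm
      have := h.eq_of_dep (hdiag b hb hbm) (hdiag a ha hm) (by ring)
      exact inv_injective (Prod.mk.inj this).1
    have hsnd : ∀ x y : F, (x, y) ∈ L → y ≠ 0 → y = 1 := by
      intro x y hxy hy
      have h1 : (x + a * y, y) ∈ L := by
        have := (hM x y).1 hxy
        simpa using this
      have h3 : (a * y, 1) ∈ L := by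
        rw [h.mul_iff hxy hy]
        simpa [add_comm] using h1
      have h4 := huniq (a * y) (mul_ne_zero ha hy) h3
      exact mul_left_cancel₀ ha (by rw [h4, mul_one])
    have ha1 : a = 1 := by
      have := hsnd _ _ (hdiag a ha hm) (inv_ne_zero ha)
      exact inv_eq_one.1 this
    have h3 : (3 : F) = 1 := by
      have : (3 : F) = 2 + 1 := by norm_num
      rw [this, h2, zero_add]
    have hneg1 : (-1 : F) = 1 := neg_eq_of_add_eq_zero_left (hdouble 1)
    refine ⟨by rw [h3]; exact one_ne_zero, ?_⟩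
    ext ⟨x, y⟩
    simp only [Set.mem_insert_iff, Set.mem_singleton_iff, Prod.mk.injEq, hneg1]
    constructor
    · intro hxy
      by_cases hy : y = 0
      · left
        subst hy
        have := h.eq_of_dep hxy h.e1 (by ring)
        exact ⟨(Prod.mk.inj this).1, rfl⟩
      · have hy1 := hsnd x y hxy hy
        subst hy1
        by_cases hx : x = 0
        · right; left; exact ⟨hx, rfl⟩
        · right; right
          exact ⟨by rw [huniq x hx hxy, ha1], rfl⟩
    · rintro (⟨rfl, rfl⟩ | ⟨rfl, rfl⟩ | ⟨rfl, rfl⟩)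
      · exact h.e1
      · exact h.e2
      · rw [ha1] at hm
        exact hm
  · -- odd characteristic: contradiction
    exfalso
    have hne : ((a, 1) : F × F) ≠ (-a, 1) := by
      intro h'
      have := (Prod.mk.inj h').1
      have h3 : 2 * a = 0 := by linear_combination this
      exact (mul_ne_zero h2 ha) h3
    have h1 : ((2 * a)⁻¹, -(2 * a)⁻¹) ∈ L := by
      rw [h.change _ hm _ hneg hne]
      have e1 : (2 * a)⁻¹ * a + -(2 * a)⁻¹ * -a = 1 := by
        have : (2 * a)⁻¹ * (2 * a) = 1 := inv_mul_cancel₀ (mul_ne_zero h2 ha)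
        linear_combination this
      have e2 : (2 * a)⁻¹ * 1 + -(2 * a)⁻¹ * 1 = 0 := by ring
      simp only [e1, e2]
      exact h.e1
    have h1' := (h.symm _ _).1 h1
    have := h.eq_of_dep h1 h1' (by ring)
    have h3 := (Prod.mk.inj this).1
    have h4 : 2 * (2 * a)⁻¹ = 0 := by linear_combination h3
    exact (mul_ne_zero h2 (inv_ne_zero (mul_ne_zero h2 ha))) h4

theorem classify (h3 : ∃ l ∈ L, l ≠ (1, 0) ∧ l ≠ (0, 1)) :
    ((3 : F) ≠ 0 ∧ L = {(1, 0), (0, 1), (-1, -1)}) ∨
      ∃ k : Subfield F, (∃ a ∈ k, a ≠ 0 ∧ a ≠ 1) ∧ L = {l | ∃ a ∈ k, l = (1 - a, a)} := by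
  by_cases hA : ∃ a : F, a ≠ 0 ∧ (a, 1) ∈ L
  · obtain ⟨a, ha, hm⟩ := hA
    exact Or.inl (h.classify_unipotent ha hm)
  push Not at hA
  have hA' : ∀ a : F, (a, 1) ∈ L → a = 0 := fun a ha => by
    by_contra hne
    exact hA a hne ha
  obtain ⟨⟨x0, y0⟩, hm0, hne1, hne2⟩ := h3
  have hy0 : y0 ≠ 0 := h.snd_ne_zero hm0 hne1
  have hx0 : x0 ≠ 0 := h.fst_ne_zero hm0 hne2
  have hy01 : y0 ≠ 1 := by
    rintro rfl
    exact hx0 (hA' x0 hm0)
  have h1y0 : 1 - y0 ≠ 0 := sub_ne_zero.2 hy01.symm
  -- the second coordinate determines the first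
  have hinj : ∀ p p' z : F, (p, z) ∈ L → (p', z) ∈ L → z ≠ 0 → p' = p := by
    intro p p' z h1 h2 hz
    have : (p' - p, 1) ∈ L := by
      rw [h.mul_iff h1 hz]
      simpa using h2
    exact sub_eq_zero.1 (hA' _ this)
  have hcomm : ∀ x y x' y' : F, (x, y) ∈ L → (x', y') ∈ L → y ≠ 0 → y' ≠ 0 →
      x' + x * y' = x + x' * y := by
    intro x y x' y' h1 h2 hy hy'
    have e1 := (h.mul_iff h1 hy x' y').1 h2
    have e2 := (h.mul_iff h2 hy' x y).1 h1
    rw [mul_comm y' y] at e2
    exact hinj _ _ _ e2 e1 (mul_ne_zero hy hy')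
  set κ := x0 / (1 - y0) with hκ
  have hκ0 : κ ≠ 0 := div_ne_zero hx0 h1y0
  have hform : ∀ x y : F, (x, y) ∈ L → y ≠ 0 → x = κ * (1 - y) := by
    intro x y hxy hy
    have := hcomm _ _ _ _ hm0 hxy hy0 hy
    rw [hκ, div_mul_eq_mul_div, eq_div_iff h1y0]
    linear_combination this
  by_cases hκ1 : κ = 1
  · -- affine case
    right
    rw [hκ1] at hform
    have hform' : ∀ x y : F, (x, y) ∈ L → x = 1 - y := by
      intro x y hxy
      by_cases hy : y = 0
      · subst hy
        have := h.eq_of_dep hxy h.e1 (by ring)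
        rw [(Prod.mk.inj this).1, sub_zero]
      · simpa using hform x y hxy hy
    have hkmul : ∀ a b : F, (1 - a, a) ∈ L → (1 - b, b) ∈ L → (1 - a * b, a * b) ∈ L := by
      intro a b ha hb
      by_cases ha0 : a = 0
      · subst ha0; simpa using ha
      · have := (h.mul_iff ha ha0 (1 - b) b).1 hb
        have e : 1 - b + (1 - a) * b = 1 - a * b := by ring
        rwa [e] at this
    have hksymm : ∀ a : F, (1 - a, a) ∈ L → (1 - (1 - a), 1 - a) ∈ L := by
      intro a ha
      have := (h.symm _ _).1 ha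
      simpa using this
    have hkinv : ∀ a : F, (1 - a, a) ∈ L → (1 - a⁻¹, a⁻¹) ∈ L := by
      intro a ha
      by_cases ha0 : a = 0
      · subst ha0; simpa using ha
      · rw [h.mul_iff ha ha0]
        have e1 : 1 - a⁻¹ + (1 - a) * a⁻¹ = 0 := by field_simp; ring
        have e2 : a * a⁻¹ = 1 := mul_inv_cancel₀ ha0
        rw [e1, e2]
        exact h.e2
    have hk0 : (1 - (0 : F), (0 : F)) ∈ L := by simpa using h.e1
    have hk1 : (1 - (1 : F), (1 : F)) ∈ L := by simpa using h.e2
    have hy0L : (1 - y0, y0) ∈ L := by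
      have := hform' _ _ hm0
      rwa [← this]
    have hkneg1 : (1 - (-1 : F), (-1 : F)) ∈ L := by
      -- a - 1 = a * (1 - a⁻¹)
      have h1 := hkmul _ _ hy0L (hksymm _ (hkinv _ hy0L))
      have e1 : y0 * (1 - y0⁻¹) = y0 - 1 := by field_simp
      rw [e1] at h1
      have h2 := hkmul _ _ h1 (hkinv _ (hksymm _ hy0L))
      have e2 : (y0 - 1) * (1 - y0)⁻¹ = -1 := by
        rw [← neg_sub, neg_mul, mul_inv_cancel₀ h1y0]
      rwa [e2] at h2
    have hkneg : ∀ a : F, (1 - a, a) ∈ L → (1 - (-a), -a) ∈ L := by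
      intro a ha
      have := hkmul _ _ hkneg1 ha
      simpa using this
    have hkadd : ∀ a b : F, (1 - a, a) ∈ L → (1 - b, b) ∈ L → (1 - (a + b), a + b) ∈ L := by
      intro a b ha hb
      by_cases hb0 : b = 0
      · subst hb0; simpa using ha
      · have h1 := hksymm _ (hkneg _ (hkmul _ _ ha (hkinv _ hb)))
        have h2 := hkmul _ _ hb h1
        have e : b * (1 - -(a * b⁻¹)) = a + b := by field_simp; ring
        rwa [e] at h2
    let k : Subfield F :=
      { carrier := {a | (1 - a, a) ∈ L}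
        mul_mem' := fun {a b} ha hb => hkmul a b ha hb
        one_mem' := hk1
        add_mem' := fun {a b} ha hb => hkadd a b ha hb
        zero_mem' := hk0
        neg_mem' := fun {a} ha => hkneg a ha
        inv_mem' := fun a ha => hkinv a ha }
    refine ⟨k, ⟨y0, hy0L, hy0, hy01⟩, ?_⟩
    ext ⟨x, y⟩
    constructor
    · intro hxy
      have := hform' x y hxy
      refine ⟨y, ?_, by rw [this]⟩
      show (1 - y, y) ∈ L
      rwa [← this]
    · rintro ⟨a, ha, hxy⟩
      rw [hxy]
      exact ha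
  · -- the exceptional case
    left
    have hrel : ∀ y : F, y ≠ 0 → y ≠ 1 → (∃ x, (x, y) ∈ L) → y * (1 + κ) = κ := by
      rintro y hy hy1 ⟨x, hxy⟩
      have hx := hform x y hxy hy
      have hxne : x ≠ 0 := by
        rw [hx]
        exact mul_ne_zero hκ0 (sub_ne_zero.2 hy1.symm)
      have h1 := hform y x ((h.symm _ _).1 hxy) hxne
      rw [hx] at h1
      have h2 : (1 - κ) * (y * (1 + κ) - κ) = 0 := by linear_combination h1
      rcases mul_eq_zero.1 h2 with h3 | h3
      · exact absurd (sub_eq_zero.1 h3).symm hκ1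
      · linear_combination h3
    have hκm1 : 1 + κ ≠ 0 := by
      intro h0
      have := hrel y0 hy0 hy01 ⟨x0, hm0⟩
      rw [h0, mul_zero] at this
      exact hκ0 this.symm
    have hsq : y0 * y0 = 1 := by
      by_contra hne
      have h1 := (h.mul_iff hm0 hy0 x0 y0).1 hm0
      have h2 := hrel (y0 * y0) (mul_ne_zero hy0 hy0) hne ⟨_, h1⟩
      have h3 := hrel y0 hy0 hy01 ⟨x0, hm0⟩
      have h4 : y0 * y0 = y0 := mul_right_cancel₀ hκm1 (by rw [h2, h3])
      exact hy01 (mul_left_cancel₀ hy0 (by rw [h4, mul_one]))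
    have hy0m : y0 = -1 := by
      have : (y0 - 1) * (y0 + 1) = 0 := by linear_combination hsq
      rcases mul_eq_zero.1 this with h1 | h1
      · exact absurd (sub_eq_zero.1 h1) hy01
      · linear_combination h1
    have h2κ : 2 * κ = -1 := by
      have := hrel y0 hy0 hy01 ⟨x0, hm0⟩
      rw [hy0m] at this
      linear_combination -this
    have hx0m : x0 = -1 := by
      have := hform x0 y0 hm0 hy0
      rw [this, hy0m]
      linear_combination h2κ
    refine ⟨?_, ?_⟩
    · intro h3
      apply hκ1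
      linear_combination h3 * κ - h2κ
    · ext ⟨x, y⟩
      simp only [Set.mem_insert_iff, Set.mem_singleton_iff, Prod.mk.injEq]
      constructor
      · intro hxy
        by_cases hy : y = 0
        · left
          subst hy
          have := h.eq_of_dep hxy h.e1 (by ring)
          exact ⟨(Prod.mk.inj this).1, rfl⟩
        · by_cases hy1 : y = 1
          · right; left
            subst hy1
            exact ⟨hA' x hxy, rfl⟩
          · right; right
            have h1 := hrel y hy hy1 ⟨x, hxy⟩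
            have h2 := hrel y0 hy0 hy01 ⟨x0, hm0⟩
            have h3 : y = y0 := mul_right_cancel₀ hκm1 (by rw [h1, h2])
            subst h3
            exact ⟨by rw [hinj _ _ _ hm0 hxy hy0, hx0m], hy0m⟩
      · rintro (⟨rfl, rfl⟩ | ⟨rfl, rfl⟩ | ⟨rfl, rfl⟩)
        · exact h.e1
        · exact h.e2
        · rw [hx0m, hy0m] at hm0
          exact hm0

end IsLineSet

end Pool.Agent.LTC
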