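import Mathlib

/-!
# Linear codes, doubly transitive codes and (adaptive) local testers

Definitions used in the statement of the threshold theorem for local testability of
doubly transitive linear codes.
-/

namespace Pool.Agent.LTC

/-- A deterministic adaptive tester: a decision tree.  An inner node `read i next` reads the
coordinate `i` of the input word and continues with the subtree that belongs to the value read;
a leaf says accept (`true`) or reject (`false`). -/
inductive DecisionTree (ι F : Type) : Type
  | leaf (accept : Bool) : DecisionTree ι F
  | read (i : ι) (next : F → DecisionTree ι F) : DecisionTree ι F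

namespace DecisionTree

variable {ι F : Type}

/-- The verdict of the tree on the input word `r` (`true` = accept). -/
def run : DecisionTree ι F → (ι → F) → Bool
  | leaf b, _ => b
  | read i next, r => (next (r i)).run r

/-- Along every path the tree reads at most `q` coordinates. -/
def ReadsAtMost : DecisionTree ι F → ℕ → Prop
  | leaf _, _ => True
  | read _ _, 0 => False
  | read _ next, q + 1 => ∀ a, (next a).ReadsAtMost q

end DecisionTree

/-- A randomized (adaptive) tester: a finite probability space of decision trees. -/
structure Tester (ι F : Type) where
  /-- the sample space -/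
  Ω : Type
  /-- it is finite -/
  fin : Fintype Ω
  /-- the probabilities -/
  prob : Ω → ℝ
  prob_nonneg : ∀ ω, 0 ≤ prob ω
  prob_sum : ∑ ω, prob ω = 1
  /-- the deterministic tester that is run when the outcome is `ω` -/
  tree : Ω → DecisionTree ι F

/-- The probability that the tester rejects the input word `r`. -/
noncomputable def Tester.rejectProb {ι F : Type} (T : Tester ι F) (r : ι → F) : ℝ :=
  letI := T.fin
  ∑ ω, if (T.tree ω).run r = false then T.prob ω else 0

section Codes

variable {ι F : Type} [Fintype ι] [Field F] [DecidableEq F]

/-- The dual code `{u : ∑ i, u i * c i = 0 for all c ∈ C}`. -/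
def dualCode (C : Submodule F (ι → F)) : Submodule F (ι → F) where
  carrier := {u | ∀ c ∈ C, ∑ i, u i * c i = 0}
  zero_mem' := by intro c _; simp
  add_mem' := by
    intro a b ha hb c hc
    simp only [Pi.add_apply, add_mul, Finset.sum_add_distrib, ha c hc, hb c hc, add_zero]
  smul_mem' := by
    intro x a ha c hc
    simp only [Pi.smul_apply, smul_eq_mul, mul_assoc, ← Finset.mul_sum, ha c hc, mul_zero]

/-- The dual words of Hamming weight at most `q`. -/
def lowWeightDual (C : Submodule F (ι → F)) (q : ℕ) : Set (ι → F) :=
  {u | u ∈ dualCode C ∧ hammingNorm u ≤ q}

/-- The relative Hamming distance from the word `r` to the code `C`. -/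
noncomputable def relDist (C : Submodule F (ι → F)) (r : ι → F) : ℝ :=
  ((sInf {d : ℕ | ∃ c ∈ C, hammingDist r c = d} : ℕ) : ℝ) / (Fintype.card ι : ℝ)

omit [Fintype ι] [DecidableEq F] in
/-- `C` is invariant under the permutation group `G`. -/
def InvariantUnder (C : Submodule F (ι → F)) (G : Subgroup (Equiv.Perm ι)) : Prop :=
  ∀ π ∈ G, ∀ w ∈ C, (fun i => w (π i)) ∈ C

end Codes

/-- The permutation group `G` is doubly transitive. -/
def DoublyTransitive {ι : Type} (G : Subgroup (Equiv.Perm ι)) : Prop :=
  ∀ i j i' j' : ι, i ≠ j → i' ≠ j' → ∃ π ∈ G, π i = i' ∧ π j = j'

/-- The code `C` is doubly transitive: it is invariant under some doubly transitive group. -/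
def DoublyTransitiveCode {ι F : Type} [Field F] (C : Submodule F (ι → F)) : Prop :=
  ∃ G : Subgroup (Equiv.Perm ι), InvariantUnder C G ∧ DoublyTransitive G

/-- `C` is locally testable with `q` queries and soundness `s`: some randomized tester reads at
most `q` coordinates, accepts every codeword with probability one, and rejects every word `r` with
probability at least `s` times the relative distance from `r` to `C`. -/
def LocallyTestable {ι F : Type} [Fintype ι] [Field F] [DecidableEq F]
    (C : Submodule F (ι → F)) (q : ℕ) (s : ℝ) : Prop :=
  ∃ T : Tester ι F, (∀ ω, (T.tree ω).ReadsAtMost q) ∧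
    (∀ r ∈ C, T.rejectProb r = 0) ∧ (∀ r : ι → F, s * relDist C r ≤ T.rejectProb r)

/-- The statement of the question for one value of `q`: there are a number of queries `q'` and a
soundness `s > 0`, depending only on `q`, such that every doubly transitive linear code `C`
(over any finite field, of any length) whose dual code is spanned by the dual words of weight at
most `q` is locally testable with `q'` queries and soundness `s`. -/
def UniformlyTestable (q : ℕ) : Prop :=
  ∃ (q' : ℕ) (s : ℝ), 0 < s ∧
    ∀ (F : Type) [Field F] [Fintype F] [DecidableEq F] (n : ℕ) (C : Submodule F (Fin n → F)),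
      DoublyTransitiveCode C → Submodule.span F (lowWeightDual C q) = dualCode C →
        LocallyTestable C q' s

end Pool.Agent.LTC
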