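import Pool.Agent.LTC.Negative

namespace Pool.Agent.LTC

section Words

variable {ι F : Type} [Fintype ι] [Field F]

open Classical in
/-- The word with coefficients `a k` at the positions `p k` (coefficients at equal positions are
added). -/
noncomputable def word {m : ℕ} (p : Fin m → ι) (a : Fin m → F) : ι → F :=
  ∑ k, Pi.single (p k) (a k)

theorem sum_word_mul {m : ℕ} (p : Fin m → ι) (a : Fin m → F) (f : ι → F) :
    ∑ i, word p a i * f i = ∑ k, a k * f (p k) := by
  classical
  unfold word
  simp only [Finset.sum_apply, Finset.sum_mul]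
  rw [Finset.sum_comm]
  refine Finset.sum_congr rfl fun k _ => ?_
  rw [Finset.sum_eq_single (p k)]
  · simp
  · intro i _ hi
    simp [Pi.single_eq_of_ne hi]
  · intro h; exact absurd (Finset.mem_univ _) h

theorem hammingNorm_word_le [DecidableEq F] {m : ℕ} (p : Fin m → ι) (a : Fin m → F) :
    hammingNorm (word p a) ≤ m := by
  classical
  unfold hammingNorm
  have : (Finset.univ.filter fun i => word p a i ≠ 0) ⊆ Finset.univ.image p := by
    intro i hi
    simp only [Finset.mem_filter, Finset.mem_univ, true_and] at hi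
    by_contra hcon
    apply hi
    simp only [Finset.mem_image, Finset.mem_univ, true_and, not_exists] at hcon
    simp only [word, Finset.sum_apply]
    refine Finset.sum_eq_zero fun k _ => ?_
    exact Pi.single_eq_of_ne (fun h => hcon k h.symm) _
  refine (Finset.card_le_card this).trans ?_
  refine Finset.card_image_le.trans ?_
  simp

end Words

section Frobenius

variable (K : Type) [Field K] [Finite K] [Algebra (ZMod 2) K]

omit [Finite K] in
theorem frob_pow_apply (j : ℕ) (x : K) :
    (FiniteField.frobeniusAlgHom (ZMod 2) K ^ j) x = x ^ 2 ^ j := by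
  induction j generalizing x with
  | zero => simp
  | succ j ih =>
    rw [pow_succ, AlgHom.mul_apply, ih, FiniteField.coe_frobeniusAlgHom]
    simp only [ZMod.card]
    rw [← pow_mul, pow_succ, mul_comm]

theorem frobEquiv_pow_apply (j : ℕ) (x : K) :
    (FiniteField.frobeniusAlgEquivOfAlgebraic (ZMod 2) K ^ j) x = x ^ 2 ^ j := by
  induction j generalizing x with
  | zero => simp
  | succ j ih =>
    rw [pow_succ, AlgEquiv.mul_apply, ih, FiniteField.coe_frobeniusAlgEquivOfAlgebraic]
    simp only [ZMod.card]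
    rw [← pow_mul, pow_succ, mul_comm]

theorem frob_modEq {a b : ℕ} (h : ∀ x : K, x ^ 2 ^ a = x ^ 2 ^ b) :
    a ≡ b [MOD Module.finrank (ZMod 2) K] := by
  rw [← FiniteField.orderOf_frobeniusAlgEquivOfAlgebraic (ZMod 2) K, ← pow_eq_pow_iff_modEq]
  ext x
  rw [frobEquiv_pow_apply, frobEquiv_pow_apply, h]

theorem pow_mod_eq (j : ℕ) (x : K) :
    x ^ 2 ^ (j % Module.finrank (ZMod 2) K) = x ^ 2 ^ j := by
  rw [← frob_pow_apply, ← frob_pow_apply, ← FiniteField.orderOf_frobeniusAlgHom (ZMod 2) K,
    pow_mod_orderOf]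

theorem powFun_injective : Function.Injective
    (fun j : Fin (Module.finrank (ZMod 2) K) => powMonoidHom (α := K) (2 ^ (j : ℕ))) := by
  intro a b hab
  have h : ∀ x : K, x ^ 2 ^ (a : ℕ) = x ^ 2 ^ (b : ℕ) := fun x => DFunLike.congr_fun hab x
  have := frob_modEq K h
  exact Fin.ext (Nat.ModEq.eq_of_lt_of_lt this a.2 b.2)

theorem linearIndependent_powFun : LinearIndependent K
    (fun (j : Fin (Module.finrank (ZMod 2) K)) (x : K) => x ^ 2 ^ (j : ℕ)) :=
  (linearIndependent_monoidHom K K).comp _ (powFun_injective K)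

theorem exists_coeff (l : K →+ K) :
    ∃ c : Fin (Module.finrank (ZMod 2) K) → K, ∀ x, l x = ∑ j, c j * x ^ 2 ^ (j : ℕ) := by
  have hli := linearIndependent_algHom_toLinearMap (ZMod 2) K K
  have hli' := hli.comp _ (FiniteField.bijective_frobeniusAlgHom_pow (ZMod 2) K).1
  have htop := hli'.span_eq_top_of_card_eq_finrank' (by
    rw [Fintype.card_fin, Module.finrank_linearMap_self])
  have hmem : (l.toZModLinearMap 2) ∈ Submodule.span K (Set.range
      ((fun f : K →ₐ[ZMod 2] K => f.toLinearMap) ∘
        fun j : Fin (Module.finrank (ZMod 2) K) =>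
          FiniteField.frobeniusAlgHom (ZMod 2) K ^ (j : ℕ))) := by
    rw [htop]; trivial
  obtain ⟨c, hc⟩ := (Submodule.mem_span_range_iff_exists_fun K).1 hmem
  refine ⟨c, fun x => ?_⟩
  have h := LinearMap.congr_fun hc x
  simp only [LinearMap.sum_apply, LinearMap.smul_apply, Function.comp_apply,
    AlgHom.toLinearMap_apply, frob_pow_apply, smul_eq_mul] at h
  rw [h]
  rfl

end Frobenius

/-- The exponents `0` and `1` are the only ones for which all the collinearity relations
hold. -/
theorem mod_eq_zero_or_one (E : Type) [Field E] [Finite E] [Algebra (ZMod 2) E] (j : ℕ)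
    (hE : 3 ≤ Module.finrank (ZMod 2) E)
    (h : ∀ a b : E, (b ^ 2 - b) * (a ^ 2 ^ j - a) = (a ^ 2 - a) * (b ^ 2 ^ j - b)) :
    j % Module.finrank (ZMod 2) E = 0 ∨ j % Module.finrank (ZMod 2) E = 1 := by
  set m := Module.finrank (ZMod 2) E with hm
  by_contra hcon
  push Not at hcon
  obtain ⟨h0, h1⟩ := hcon
  have hlt : j % m < m := Nat.mod_lt _ (by omega)
  -- an element with a ^ 2 ≠ a
  have : ∃ a : E, a ^ 2 - a ≠ 0 := by
    by_contra hall
    push Not at hall
    have h2 : ∀ x : E, x ^ 2 ^ 1 = x ^ 2 ^ 0 := by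
      intro x
      have := hall x
      rw [pow_one, pow_zero, pow_one]
      exact sub_eq_zero.1 this
    have h3 := frob_modEq E h2
    rw [← hm] at h3
    have := Nat.ModEq.eq_of_lt_of_lt h3 (by omega) (by omega)
    omega
  obtain ⟨a, ha⟩ := this
  set c := (a ^ 2 ^ j - a) / (a ^ 2 - a) with hc
  have key : ∀ b : E, b ^ 2 ^ (j % m) - b = c * (b ^ 2 - b) := by
    intro b
    rw [hm, pow_mod_eq, hc, div_mul_eq_mul_div, eq_div_iff ha]
    linear_combination -(h a b)
  have hli := linearIndependent_powFun E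
  rw [← hm, Fintype.linearIndependent_iff] at hli
  have hspec := hli (fun i => Pi.single (M := fun _ => E) (⟨j % m, hlt⟩ : Fin m) (1 : E) i +
      Pi.single (M := fun _ => E) (⟨1, by omega⟩ : Fin m) (-c) i +
      Pi.single (M := fun _ => E) (⟨0, by omega⟩ : Fin m) (c - 1) i) (by
    funext b
    simp only [add_smul, Finset.sum_add_distrib, Finset.sum_apply, Pi.add_apply, Pi.smul_apply,
      smul_eq_mul, Pi.single_apply, ite_mul, zero_mul, Finset.sum_ite_eq', Finset.mem_univ,
      if_true, Pi.zero_apply, pow_one, pow_zero]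
    have := key b
    linear_combination this)
    ⟨j % m, hlt⟩
  simp [h0, h1] at hspec

end Pool.Agent.LTC
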