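import Pool.Agent.LTC.Basic

namespace Pool.Agent.LTC

section RelDist

variable {ι F : Type} [Fintype ι] [Field F] [DecidableEq F]

theorem relDist_le (C : Submodule F (ι → F)) (r c : ι → F) (hc : c ∈ C) :
    relDist C r ≤ (hammingDist r c : ℝ) / (Fintype.card ι : ℝ) := by
  unfold relDist
  refine div_le_div_of_nonneg_right ?_ (by positivity)
  have h : sInf {d : ℕ | ∃ c ∈ C, hammingDist r c = d} ≤ hammingDist r c :=
    Nat.sInf_le ⟨c, hc, rfl⟩
  exact_mod_cast h

theorem relDist_nonneg (C : Submodule F (ι → F)) (r : ι → F) : 0 ≤ relDist C r := by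
  unfold relDist; positivity

theorem exists_relDist (C : Submodule F (ι → F)) (r : ι → F) :
    ∃ c ∈ C, relDist C r = (hammingDist r c : ℝ) / (Fintype.card ι : ℝ) := by
  have h : {d : ℕ | ∃ c ∈ C, hammingDist r c = d}.Nonempty := ⟨_, 0, C.zero_mem, rfl⟩
  obtain ⟨c, hc, hd⟩ := Nat.sInf_mem h
  exact ⟨c, hc, by rw [relDist, ← hd]⟩

theorem relDist_le_one (C : Submodule F (ι → F)) (r : ι → F) : relDist C r ≤ 1 := by
  refine (relDist_le C r 0 C.zero_mem).trans ?_
  refine div_le_one_of_le₀ ?_ (by positivity)
  exact_mod_cast hammingDist_le_card_fintype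

theorem relDist_eq_zero_of_mem (C : Submodule F (ι → F)) (r : ι → F) (hr : r ∈ C) :
    relDist C r = 0 := by
  refine le_antisymm ?_ (relDist_nonneg C r)
  refine (relDist_le C r r hr).trans ?_
  simp

end RelDist

/-- If a linear code has `t` words, each at relative distance at least `1/2` from the code, such
that on every set of at most `q` positions all but at most `q` of these words look like codewords,
then it has no tester with `q` queries and soundness `s` once `2 q < s t`. -/
theorem not_locallyTestable_of_family {ι F : Type} [Fintype ι] [Field F] [Fintype F]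
    [DecidableEq F] (C : Submodule F (ι → F)) (q : ℕ) (s : ℝ) (hs : 0 < s)
    (t : ℕ) (r : Fin t → ι → F)
    (hdist : ∀ k, ∀ c ∈ C, (1 / 2 : ℝ) ≤ relDist C (c + r k))
    (hr : ∀ I : Finset ι, I.card ≤ q →
      ∃ S : Finset (Fin t), S.card ≤ q ∧ ∀ k, k ∉ S → ∃ d ∈ C, ∀ i ∈ I, d i = r k i)
    (ht : 2 * (q : ℝ) < s * t) : ¬ LocallyTestable C q s := by
  rintro ⟨T, hq, hC, hsound⟩
  let _ : Fintype C := Fintype.ofFinite C
  have h1 := sum_rejectProb_le C T q hq hC t r hr
  have h2 : ∑ k : Fin t, ∑ c : C, s * (1 / 2 : ℝ) ≤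
      ∑ k, ∑ c : C, T.rejectProb ((c : ι → F) + r k) := by
    refine Finset.sum_le_sum fun k _ => Finset.sum_le_sum fun c _ => ?_
    exact (mul_le_mul_of_nonneg_left (hdist k c c.2) hs.le).trans (hsound _)
  have h3 := h2.trans h1
  simp only [Finset.sum_const, Finset.card_univ, Fintype.card_fin, nsmul_eq_mul] at h3
  have hcard : (0 : ℝ) < Fintype.card C := by exact_mod_cast Fintype.card_pos
  nlinarith

section Box

variable {t : ℕ} (n : Fin t → ℕ)

/-- Exponents `j` whose residue is `0` or `1` modulo each `n i`, `i ∈ S`, and `0` modulo the other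
`n i`. -/
def expSet (S : Finset (Fin t)) : Set ℕ :=
  {j | (∀ i ∈ S, j % n i = 0 ∨ j % n i = 1) ∧ ∀ i, i ∉ S → j % n i = 0}

variable {K : Type} [Field K] {α : Type}

/-- The `K`-span of the constant word and of the words `v ^ (2 ^ j)`, `j ∈ expSet n S`. -/
def box (v : α → K) (S : Finset (Fin t)) : Submodule K (α → K) :=
  Submodule.span K (insert (fun _ => 1) {w | ∃ j ∈ expSet n S, w = fun a => v a ^ 2 ^ j})

variable {n}

theorem zero_mem_expSet (S : Finset (Fin t)) : 0 ∈ expSet n S := by
  constructor
  · intro i _; left; simp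
  · intro i _; simp

theorem expSet_mono {S S' : Finset (Fin t)} (h : S ⊆ S') : expSet n S ⊆ expSet n S' := by
  rintro j ⟨h1, h2⟩
  refine ⟨fun i _ => ?_, fun i hi => h2 i fun h' => hi (h h')⟩
  by_cases hS : i ∈ S
  · exact h1 i hS
  · exact Or.inl (h2 i hS)

theorem one_mem_box (v : α → K) (S : Finset (Fin t)) : (fun _ => 1) ∈ box n v S :=
  Submodule.subset_span (Set.mem_insert _ _)

theorem pow_mem_box (v : α → K) {S : Finset (Fin t)} {j : ℕ} (hj : j ∈ expSet n S) :
    (fun a => v a ^ 2 ^ j) ∈ box n v S :=
  Submodule.subset_span (Set.mem_insert_of_mem _ ⟨j, hj, rfl⟩)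

theorem self_mem_box (v : α → K) (S : Finset (Fin t)) : v ∈ box n v S := by
  have := pow_mem_box (n := n) v (zero_mem_expSet (n := n) S)
  simpa using this

theorem box_mono (v : α → K) {S S' : Finset (Fin t)} (h : S ⊆ S') : box n v S ≤ box n v S' := by
  refine Submodule.span_mono (Set.insert_subset_insert ?_)
  rintro w ⟨j, hj, rfl⟩
  exact ⟨j, expSet_mono h hj, rfl⟩

variable [CharP K 2] {e : Fin t → ℕ}

/-- Every `n i` is at least `3`, and `e i` is `1` modulo `n i` and `0` modulo the other `n l`. -/
structure IsCRT (n e : Fin t → ℕ) : Prop where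
  three_le : ∀ i, 3 ≤ n i
  one : ∀ i, e i % n i = 1
  zero : ∀ i l, l ≠ i → e i % n l = 0

theorem frob_mem (he : IsCRT n e) (v : α → K) {S : Finset (Fin t)} {i : Fin t} (hi : i ∉ S)
    {w : α → K} (hw : w ∈ box n v S) : (fun a => w a ^ 2 ^ e i) ∈ box n v (insert i S) := by
  have : Fact (Nat.Prime 2) := ⟨Nat.prime_two⟩
  induction hw using Submodule.span_induction with
  | mem w hw =>
    rcases hw with rfl | ⟨j, hj, rfl⟩
    · simpa using one_mem_box v _
    · have h1 : j + e i ∈ expSet n (insert i S) := by
        constructor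
        · intro l hl
          by_cases hli : l = i
          · subst hli
            right
            rw [Nat.add_mod, hj.2 l hi, he.one l]
            have : 1 < n l := by have := he.three_le l; omega
            simp [Nat.mod_eq_of_lt this]
          · have := he.zero i l hli
            rw [Nat.add_mod, this]
            simpa using hj.1 l (by simpa [hli] using hl)
        · intro l hl
          have hli : l ≠ i := by rintro rfl; simp at hl
          have hlS : l ∉ S := by intro h; simp [h] at hl
          rw [Nat.add_mod, hj.2 l hlS, he.zero i l hli]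
          simp
      have h2 := pow_mem_box (K := K) v h1
      simpa [pow_add, pow_mul] using h2
  | zero =>
    have : (fun a => (0 : α → K) a ^ 2 ^ e i) = 0 := by
      funext a; simp
    rw [this]
    exact Submodule.zero_mem _
  | add w w' _ _ h h' =>
    have : (fun a => (w + w') a ^ 2 ^ e i) = (fun a => w a ^ 2 ^ e i) + fun a => w' a ^ 2 ^ e i := by
      funext a
      simp only [Pi.add_apply]
      exact add_pow_char_pow ..
    rw [this]
    exact Submodule.add_mem _ h h'
  | smul c w _ h =>
    have : (fun a => (c • w) a ^ 2 ^ e i) = c ^ 2 ^ e i • fun a => w a ^ 2 ^ e i := by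
      funext a
      simp [mul_pow]
    rw [this]
    exact Submodule.smul_mem _ _ h

/-- All but few of the words `v ^ (2 ^ (2 * e i))` lie in the box space of `v`. -/
theorem exists_small_set [Fintype α] (he : IsCRT n e) (v : α → K) :
    ∃ S : Finset (Fin t), S.card ≤ Fintype.card α ∧
      ∀ i, i ∉ S → (fun a => v a ^ 2 ^ (2 * e i)) ∈ box n v Finset.univ := by
  classical
  have hne : (Finset.univ.filter fun S : Finset (Fin t) =>
      S.card ≤ Module.finrank K (box n v S)).Nonempty := ⟨∅, by simp⟩
  obtain ⟨S, hS, hmax⟩ := Finset.exists_max_image _ (fun S : Finset (Fin t) => S.card) hne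
  simp only [Finset.mem_filter, Finset.mem_univ, true_and] at hS hmax
  refine ⟨S, hS.trans ?_, fun i hi => ?_⟩
  · refine (Submodule.finrank_le _).trans ?_
    simp
  · have hle : box n v S ≤ box n v (insert i S) := box_mono v (Finset.subset_insert i S)
    have heq : box n v S = box n v (insert i S) := by
      refine Submodule.eq_of_le_of_finrank_le hle ?_
      by_contra hlt
      push Not at hlt
      have h1 := hmax (insert i S) (by
        rw [Finset.card_insert_of_notMem hi]
        omega)
      rw [Finset.card_insert_of_notMem hi] at h1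
      omega
    have h1 : (fun a => v a ^ 2 ^ e i) ∈ box n v S := by
      rw [heq]
      exact frob_mem he v hi (self_mem_box v S)
    have h2 : (fun a => (v a ^ 2 ^ e i) ^ 2 ^ e i) ∈ box n v S := by
      rw [heq]
      exact frob_mem he v hi h1
    have h3 : (fun a => v a ^ 2 ^ (2 * e i)) = fun a => (v a ^ 2 ^ e i) ^ 2 ^ e i := by
      funext a
      rw [← pow_mul, ← pow_add, two_mul]
    rw [h3]
    exact box_mono v (Finset.subset_univ S) h2

end Box

end Pool.Agent.LTC
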