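import Pool.Agent.LTC.PosCases
import Pool.Agent.LTC.AffineBLR

namespace Pool.Agent.LTC

open Finset

variable {ι F : Type} [Fintype ι] [Field F] [DecidableEq F]

section Affine

variable {C : Submodule F (ι → F)} {k : Subfield F}

omit [Fintype ι] [DecidableEq F] in
theorem exists_affine_point
    (hline : ∀ i j, i ≠ j → ∀ a ∈ k, ∃ l, ev C l = (1 - a) • ev C i + a • ev C j)
    (i j : ι) (a : F) (ha : a ∈ k) : ∃ l, ev C l = (1 - a) • ev C i + a • ev C j := by
  by_cases hij : i = j
  · subst hij
    exact ⟨i, by rw [sub_smul, one_smul]; abel⟩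
  · exact hline i j hij a ha

/-- The positions of a code of affine type form a space over the subfield `k`. -/
def affSpace (C : Submodule F (ι → F)) (k : Subfield F) (i0 : ι)
    (hline : ∀ i j, i ≠ j → ∀ a ∈ k, ∃ l, ev C l = (1 - a) • ev C i + a • ev C j)
    (hk : ∃ a ∈ k, a ≠ 0 ∧ a ≠ 1) : Submodule k (C → F) where
  carrier := {x | ∃ l, ev C l = ev C i0 + x}
  zero_mem' := ⟨i0, by simp⟩
  add_mem' := by
    rintro x y ⟨l, hl⟩ ⟨m, hm⟩
    obtain ⟨b, hb, hb0, hb1⟩ := hk
    have h1b : 1 - b ≠ 0 := sub_ne_zero.2 hb1.symm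
    obtain ⟨l', hl'⟩ := exists_affine_point hline i0 l b⁻¹ (k.inv_mem hb)
    obtain ⟨m', hm'⟩ := exists_affine_point hline i0 m (1 - b)⁻¹
      (k.inv_mem (k.sub_mem k.one_mem hb))
    obtain ⟨p, hp⟩ := exists_affine_point hline l' m' (1 - b) (k.sub_mem k.one_mem hb)
    refine ⟨p, ?_⟩
    rw [hp, hl', hm', hl, hm]
    funext w
    simp only [Pi.add_apply, Pi.smul_apply, smul_eq_mul]
    field_simp
    ring
  smul_mem' := by
    rintro ⟨a, ha⟩ x ⟨l, hl⟩
    obtain ⟨p, hp⟩ := exists_affine_point hline i0 l a ha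
    refine ⟨p, ?_⟩
    rw [hp, hl]
    funext w
    simp only [Pi.add_apply, Pi.smul_apply, smul_eq_mul, Subfield.smul_def]
    ring

theorem case_affine [Finite F] (hI : PairIndep C) (hcard : 2 ≤ Fintype.card ι)
    (hspan : Submodule.span F (lowWeightDual C 3) = dualCode C)
    (hline : ∀ i j, i ≠ j → ∀ a ∈ k, ∃ l, ev C l = (1 - a) • ev C i + a • ev C j)
    (hline' : ∀ i j l, i ≠ j → ∀ a b : F, ev C l = a • ev C i + b • ev C j →
      ∃ c ∈ k, (a, b) = (1 - c, c))
    (hk : ∃ a ∈ k, a ≠ 0 ∧ a ≠ 1) : LocallyTestable C 3 (1 / 26) := by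
  classical
  have hne : Nonempty ι := Fintype.card_pos_iff.1 (by omega)
  obtain ⟨i0⟩ := id hne
  let M := affSpace C k i0 hline hk
  have hMmem : ∀ x : C → F, x ∈ M ↔ ∃ l, ev C l = ev C i0 + x := fun x => Iff.rfl
  -- positions and the space
  let E0 : ι → M := fun l => ⟨ev C l - ev C i0, l, by abel⟩
  have hE0 : ∀ l, (E0 l : C → F) = ev C l - ev C i0 := fun _ => rfl
  have hbij : Function.Bijective E0 := by
    constructor
    · intro l m h
      apply hI.ev_inj
      have := congrArg (fun x : M => (x : C → F)) h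
      simp only [hE0] at this
      exact sub_left_injective this
    · rintro ⟨x, l, hl⟩
      refine ⟨l, ?_⟩
      apply Subtype.ext
      rw [hE0, hl]
      simp
  let E : ι ≃ M := Equiv.ofBijective E0 hbij
  have hE : ∀ l, (E l : C → F) = ev C l - ev C i0 := fun _ => rfl
  let _ : Fintype M := Fintype.ofEquiv ι E
  have hcardM : Fintype.card M = Fintype.card ι := (Fintype.card_congr E).symm
  -- a generator of the multiplicative group
  obtain ⟨g, hg⟩ := IsCyclic.exists_monoid_generator (α := kˣ)
  have hg1 : (g : k) ≠ 1 := by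
    intro h1
    obtain ⟨a, ha, ha0, ha1⟩ := hk
    have hg1' : g = 1 := Units.ext h1
    obtain ⟨n, hn⟩ := hg (Units.mk0 ⟨a, ha⟩ (by
      intro h; exact ha0 (congrArg Subtype.val h)))
    simp only [hg1', one_pow] at hn
    apply ha1
    have := congrArg (fun u : kˣ => ((u : k) : F)) hn
    simpa using this.symm
  have hg0 : (g : k) ≠ 0 := g.ne_zero
  set a : k := (g : k) with ha
  -- third points
  have ht : ∀ p : ι × ι, ∃ l, ev C l = (1 - (a : F)) • ev C p.1 + (a : F) • ev C p.2 :=
    fun p => exists_affine_point hline p.1 p.2 a a.2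
  choose t ht using ht
  have htE : ∀ i j, E (t (i, j)) = (1 - a) • E i + a • E j := by
    intro i j
    apply Subtype.ext
    rw [hE, ht]
    simp only [Submodule.coe_add, Submodule.coe_smul, hE]
    funext w
    simp only [Pi.add_apply, Pi.sub_apply, Pi.smul_apply, smul_eq_mul, Subfield.smul_def]
    push_cast
    ring
  have hnn : Nonempty (ι × ι) := ⟨(i0, i0)⟩
  refine locallyTestable_of_three C (Ω := ι × ι) (fun p => p.1) (fun p => p.2) t
    (fun _ x y z => decide (z = (1 - (a : F)) * x + (a : F) * y)) (1 / 26) ?_ ?_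
  · rintro r hr p
    have := congrFun (ht p) ⟨r, hr⟩
    simpa [ev] using this
  · intro r
    set f : M → F := fun x => r (E.symm x) with hf
    have hfE : ∀ l, f (E l) = r l := fun l => by simp [hf]
    set B := (univ.filter fun p : ι × ι =>
      decide (r (t p) = (1 - (a : F)) * r p.1 + (a : F) * r p.2) = false).card with hB
    have hV : ∑ x, ∑ y, aff a f x y = B := by
      rw [hB, card_filter, Fintype.sum_prod_type]
      rw [← Equiv.sum_comp E]
      refine sum_congr rfl fun i _ => ?_
      rw [← Equiv.sum_comp E]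
      refine sum_congr rfl fun j _ => ?_
      simp only [aff, ← htE, hfE]
      by_cases h : r (t (i, j)) = (1 - (a : F)) * r i + (a : F) * r j
      · simp [h]
      · simp [h]
    have hn : (0 : ℝ) < Fintype.card ι := by exact_mod_cast Fintype.card_pos
    have hcp : (Fintype.card (ι × ι) : ℝ) = Fintype.card ι * Fintype.card ι := by
      rw [Fintype.card_prod]; push_cast; ring
    rw [hcp]
    by_cases hlt : 26 * B < Fintype.card ι * Fintype.card ι
    · obtain ⟨ψ, c, hψ, hdist⟩ := affine_blr a hg0 hg1 f (by rw [hV, hcardM]; exact hlt)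
      rw [hV, hcardM] at hdist
      have hψk := smul_of_generator g hg ψ hψ
      have hw : (fun i => ψ (E i) + c) ∈ C := by
        refine mem_of_three_point hI hcard hspan fun i j l hij α β hl => ?_
        obtain ⟨b, hb, hab⟩ := hline' i j l hij α β hl
        obtain ⟨rfl, rfl⟩ := Prod.mk.inj hab
        have hEl : E l = E i - (⟨β, hb⟩ : k) • E i + (⟨β, hb⟩ : k) • E j := by
          apply Subtype.ext
          rw [hE, hl]
          simp only [Submodule.coe_add, Submodule.coe_sub, Submodule.coe_smul, hE]
          funext w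
          simp only [Pi.add_apply, Pi.sub_apply, Pi.smul_apply, smul_eq_mul, Subfield.smul_def]
          ring
        rw [hEl, map_add, map_sub, hψk, hψk]
        ring
      have hd : hammingDist r (fun i => ψ (E i) + c) =
          (univ.filter fun x => f x ≠ ψ x + c).card := by
        unfold hammingDist
        rw [card_filter, card_filter, ← Equiv.sum_comp E]
        refine sum_congr rfl fun i _ => ?_
        rw [hfE]
      have h1 := relDist_le C r _ hw
      rw [hd, le_div_iff₀ hn] at h1
      have h2 : (Fintype.card ι : ℝ) *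
          ((univ.filter fun x => f x ≠ ψ x + c).card : ℝ) ≤ 4 * B := by
        exact_mod_cast hdist
      have h3 : (0 : ℝ) ≤ B := by positivity
      have h4 := mul_le_mul_of_nonneg_right h1 hn.le
      nlinarith
    · push Not at hlt
      have h1 := relDist_le_one C r
      have h2 : (Fintype.card ι : ℝ) * Fintype.card ι ≤ 26 * B := by exact_mod_cast hlt
      have h3 := relDist_nonneg C r
      have h4 : 0 < (Fintype.card ι : ℝ) * Fintype.card ι := by positivity
      have h5 : relDist C r * ((Fintype.card ι : ℝ) * Fintype.card ι) ≤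
        1 * ((Fintype.card ι : ℝ) * Fintype.card ι) := mul_le_mul_of_nonneg_right h1 h4.le
      have h6 : 1 / 26 * relDist C r * ((Fintype.card ι : ℝ) * Fintype.card ι) ≤ B := by
        linarith
      exact h6

end Affine

end Pool.Agent.LTC
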