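import Pool.Agent.LTC.Negative
import Pool.Agent.LTC.BLR
import Pool.Agent.LTC.Classify

namespace Pool.Agent.LTC

open Finset

variable {ι F : Type} [Fintype ι] [Field F] [DecidableEq F]

section Testers

/-- A tester that accepts everything. -/
noncomputable def acceptAll (ι F : Type) : Tester ι F where
  Ω := Unit
  fin := inferInstance
  prob := fun _ => 1
  prob_nonneg := fun _ => zero_le_one
  prob_sum := by simp
  tree := fun _ => DecisionTree.leaf true

theorem locallyTestable_of_relDist_eq_zero (C : Submodule F (ι → F)) (q : ℕ) (s : ℝ)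
    (h : ∀ r, relDist C r = 0) : LocallyTestable C q s := by
  have h0 : ∀ r : ι → F, (acceptAll ι F).rejectProb r = 0 := by
    intro r
    simp [Tester.rejectProb, acceptAll, DecisionTree.run]
  exact ⟨acceptAll ι F, fun _ => trivial, fun r _ => h0 r, fun r => by rw [h r, h0 r, mul_zero]⟩

/-- The uniform tester that reads three positions. -/
noncomputable def threeTester {Ω : Type} [Fintype Ω] [Nonempty Ω] (p1 p2 p3 : Ω → ι)
    (acc : Ω → F → F → F → Bool) : Tester ι F where
  Ω := Ω
  fin := inferInstance
  prob := fun _ => 1 / (Fintype.card Ω : ℝ)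
  prob_nonneg := fun _ => by positivity
  prob_sum := by
    rw [sum_const, card_univ, nsmul_eq_mul, mul_one_div_cancel]
    exact_mod_cast Fintype.card_ne_zero
  tree := fun ω => DecisionTree.read (p1 ω) fun a => DecisionTree.read (p2 ω) fun b =>
    DecisionTree.read (p3 ω) fun c => DecisionTree.leaf (acc ω a b c)

omit [Fintype ι] [Field F] [DecidableEq F] in
theorem threeTester_rejectProb {Ω : Type} [Fintype Ω] [Nonempty Ω] (p1 p2 p3 : Ω → ι)
    (acc : Ω → F → F → F → Bool) (r : ι → F) :
    (threeTester p1 p2 p3 acc).rejectProb r =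
      ((univ.filter fun ω => acc ω (r (p1 ω)) (r (p2 ω)) (r (p3 ω)) = false).card : ℝ) /
        (Fintype.card Ω : ℝ) := by
  simp only [Tester.rejectProb, threeTester, DecisionTree.run]
  rw [← sum_filter, sum_const, nsmul_eq_mul, mul_one_div]
  rfl

theorem locallyTestable_of_three (C : Submodule F (ι → F)) {Ω : Type} [Fintype Ω] [Nonempty Ω]
    (p1 p2 p3 : Ω → ι) (acc : Ω → F → F → F → Bool) (s : ℝ)
    (hcomp : ∀ r ∈ C, ∀ ω, acc ω (r (p1 ω)) (r (p2 ω)) (r (p3 ω)) = true)
    (hsound : ∀ r : ι → F, s * relDist C r * (Fintype.card Ω : ℝ) ≤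
      ((univ.filter fun ω => acc ω (r (p1 ω)) (r (p2 ω)) (r (p3 ω)) = false).card : ℝ)) :
    LocallyTestable C 3 s := by
  refine ⟨threeTester p1 p2 p3 acc, ?_, ?_, ?_⟩
  · intro ω
    simp [threeTester, DecisionTree.ReadsAtMost]
  · intro r hr
    rw [threeTester_rejectProb]
    have : (univ.filter fun ω => acc ω (r (p1 ω)) (r (p2 ω)) (r (p3 ω)) = false) = ∅ := by
      refine filter_eq_empty_iff.2 fun ω _ => ?_
      rw [hcomp r hr ω]
      simp
    rw [this]
    simp
  · intro r
    rw [threeTester_rejectProb, le_div_iff₀]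
    · exact hsound r
    · exact_mod_cast Fintype.card_pos

/-- Codes of length at most three are testable by reading the whole word. -/
theorem locallyTestable_of_card_le_three (C : Submodule F (ι → F)) (hcard : Fintype.card ι ≤ 3)
    (s : ℝ) (hs0 : 0 ≤ s) (hs : s ≤ 1) : LocallyTestable C 3 s := by
  classical
  rcases isEmpty_or_nonempty ι with hι | hι
  · refine locallyTestable_of_relDist_eq_zero C 3 s fun r => ?_
    unfold relDist
    simp
  obtain ⟨p, hp⟩ : ∃ p : Fin 3 → ι, Function.Surjective p := by
    obtain ⟨e⟩ := Function.Embedding.nonempty_of_card_le (α := ι) (β := Fin 3) (by simpa)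
    exact ⟨Function.invFun e, Function.invFun_surjective e.injective⟩
  refine locallyTestable_of_three C (Ω := Unit) (fun _ => p 0) (fun _ => p 1) (fun _ => p 2)
    (fun _ a b c => decide (∃ w ∈ C, w (p 0) = a ∧ w (p 1) = b ∧ w (p 2) = c)) s ?_ ?_
  · intro r hr _
    simp only [decide_eq_true_eq]
    exact ⟨r, hr, rfl, rfl, rfl⟩
  · intro r
    by_cases hr : r ∈ C
    · rw [relDist_eq_zero_of_mem C r hr]
      simp
    · have hrej : ¬ ∃ w ∈ C, w (p 0) = r (p 0) ∧ w (p 1) = r (p 1) ∧ w (p 2) = r (p 2) := by
        rintro ⟨w, hw, h0, h1, h2⟩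
        apply hr
        have : w = r := by
          funext i
          obtain ⟨k, rfl⟩ := hp i
          fin_cases k
          · exact h0
          · exact h1
          · exact h2
        rwa [← this]
      simp only [hrej, decide_false, filter_true, card_univ, Fintype.card_unit, Nat.cast_one,
        mul_one]
      have := relDist_le_one C r
      have h2 := relDist_nonneg C r
      nlinarith

end Testers

section Evaluation

/-- The evaluation functional of the code at a position. -/
def ev (C : Submodule F (ι → F)) (i : ι) : C → F := fun w => (w : ι → F) i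

omit [Fintype ι] [DecidableEq F] in
@[simp] theorem ev_apply (C : Submodule F (ι → F)) (i : ι) (w : C) :
    ev C i w = (w : ι → F) i := rfl

/-- Pairwise independence of the evaluation functionals. -/
def PairIndep (C : Submodule F (ι → F)) : Prop :=
  ∀ i j, i ≠ j → ∀ a b : F, a • ev C i + b • ev C j = 0 → a = 0 ∧ b = 0

/-- There are enough code automorphisms. -/
def Auto (C : Submodule F (ι → F)) : Prop :=
  ∀ i j i' j' : ι, i ≠ j → i' ≠ j' → ∃ π : Equiv.Perm ι, π i = i' ∧ π j = j' ∧
    ∀ w ∈ C, (fun l => w (π l)) ∈ C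

omit [Fintype ι] [DecidableEq F] in
theorem auto_of_doublyTransitive {C : Submodule F (ι → F)} (h : DoublyTransitiveCode C) :
    Auto C := by
  obtain ⟨G, hG, hT⟩ := h
  intro i j i' j' hij hij'
  obtain ⟨π, hπ, h1, h2⟩ := hT i j i' j' hij hij'
  exact ⟨π, h1, h2, hG π hπ⟩

omit [Fintype ι] [DecidableEq F] in
theorem ev_transport {C : Submodule F (ι → F)} {π : Equiv.Perm ι}
    (hπ : ∀ w ∈ C, (fun l => w (π l)) ∈ C) {i j l : ι} {a b : F}
    (h : ev C l = a • ev C i + b • ev C j) :
    ev C (π l) = a • ev C (π i) + b • ev C (π j) := by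
  funext w
  have := congrFun h ⟨fun l => (w : ι → F) (π l), hπ w w.2⟩
  simpa using this

omit [Fintype ι] [DecidableEq F] in
theorem exists_transport {C : Submodule F (ι → F)} (hC : Auto C) {i j i' j' : ι} (hij : i ≠ j)
    (hij' : i' ≠ j') {a b : F} (h : ∃ l, ev C l = a • ev C i + b • ev C j) :
    ∃ l, ev C l = a • ev C i' + b • ev C j' := by
  obtain ⟨l, hl⟩ := h
  obtain ⟨π, h1, h2, h3⟩ := hC i j i' j' hij hij'
  refine ⟨π l, ?_⟩
  rw [← h1, ← h2]
  exact ev_transport h3 hl

omit [Fintype ι] [DecidableEq F] in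
theorem PairIndep.ev_ne_zero {C : Submodule F (ι → F)} (h : PairIndep C) {i j : ι}
    (hij : i ≠ j) : ev C i ≠ 0 := by
  intro h0
  have := h i j hij 1 0 (by rw [h0]; simp)
  exact one_ne_zero this.1

omit [Fintype ι] [DecidableEq F] in
theorem PairIndep.ev_inj {C : Submodule F (ι → F)} (h : PairIndep C) {i j : ι}
    (hij : ev C i = ev C j) : i = j := by
  by_contra hne
  have := h i j hne 1 (-1) (by rw [hij]; simp)
  exact one_ne_zero this.1

omit [Fintype ι] [DecidableEq F] in
theorem PairIndep.coeff_eq {C : Submodule F (ι → F)} (h : PairIndep C) {i j : ι}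
    (hij : i ≠ j) {a b a' b' : F}
    (heq : a • ev C i + b • ev C j = a' • ev C i + b' • ev C j) : a = a' ∧ b = b' := by
  have := h i j hij (a - a') (b - b') (by
    rw [sub_smul, sub_smul]
    have h0 : a • ev C i + b • ev C j - (a' • ev C i + b' • ev C j) = 0 := sub_eq_zero.2 heq
    rw [← h0]
    abel)
  exact ⟨sub_eq_zero.1 this.1, sub_eq_zero.1 this.2⟩

/-- A word that satisfies all three-point relations of the code is a codeword. -/
theorem mem_of_three_point {C : Submodule F (ι → F)} (hI : PairIndep C)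
    (hcard : 2 ≤ Fintype.card ι)
    (hspan : Submodule.span F (lowWeightDual C 3) = dualCode C) {f : ι → F}
    (hf : ∀ i j l, i ≠ j → ∀ a b : F, ev C l = a • ev C i + b • ev C j →
      f l = a * f i + b * f j) : f ∈ C := by
  classical
  refine mem_of_span_eq hspan ?_
  rintro u ⟨hu, hw⟩
  have hrel : ∑ i, u i • ev C i = 0 := by
    funext w
    have := hu w w.2
    simpa [Finset.sum_apply] using this
  set S := univ.filter fun i => u i ≠ 0 with hS
  have hcardS : S.card ≤ 3 := hw
  have hrelS : ∑ i ∈ S, u i • ev C i = 0 := by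
    rw [← hrel]
    refine sum_subset (subset_univ _) fun i _ hi => ?_
    have : u i = 0 := by
      by_contra h
      exact hi (by simp [hS, h])
    rw [this, zero_smul]
  have hfS : ∑ i, u i * f i = ∑ i ∈ S, u i * f i := by
    symm
    refine sum_subset (subset_univ _) fun i _ hi => ?_
    have : u i = 0 := by
      by_contra h
      exact hi (by simp [hS, h])
    rw [this, zero_mul]
  rw [hfS]
  have hSmem : ∀ i ∈ S, u i ≠ 0 := fun i hi => (mem_filter.1 hi).2
  interval_cases hc : S.card
  · rw [card_eq_zero] at hc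
    rw [hc, sum_empty]
  · exfalso
    obtain ⟨i, hi⟩ := card_eq_one.1 hc
    rw [hi, sum_singleton] at hrelS
    have : Nontrivial ι := Fintype.one_lt_card_iff_nontrivial.1 (by omega)
    obtain ⟨j, hj⟩ := exists_ne i
    rcases smul_eq_zero.1 hrelS with h | h
    · exact hSmem i (by rw [hi]; simp) h
    · exact hI.ev_ne_zero hj.symm h
  · exfalso
    obtain ⟨i, j, hij, hi⟩ := card_eq_two.1 hc
    rw [hi, sum_pair hij] at hrelS
    exact hSmem i (by rw [hi]; simp) (hI i j hij _ _ hrelS).1
  · obtain ⟨i, j, l, hij, hil, hjl, hi⟩ := card_eq_three.1 hc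
    have hul : u l ≠ 0 := hSmem l (by rw [hi]; simp)
    have e1 : ∑ i ∈ S, u i • ev C i = u i • ev C i + u j • ev C j + u l • ev C l := by
      rw [hi, sum_insert (by simp [hij, hil]), sum_insert (by simp [hjl]), sum_singleton]
      abel
    have e2 : ∑ i ∈ S, u i * f i = u i * f i + u j * f j + u l * f l := by
      rw [hi, sum_insert (by simp [hij, hil]), sum_insert (by simp [hjl]), sum_singleton]
      ring
    rw [e1] at hrelS
    rw [e2]
    have h1 : ev C l = (-(u l)⁻¹ * u i) • ev C i + (-(u l)⁻¹ * u j) • ev C j := by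
      have : ev C l = (u l)⁻¹ • (u l • ev C l) := by
        rw [smul_smul, inv_mul_cancel₀ hul, one_smul]
      rw [this]
      have h2 : u l • ev C l = -(u i • ev C i + u j • ev C j) := by
        rw [eq_neg_iff_add_eq_zero, ← hrelS]
        abel
      rw [h2, smul_neg, smul_add, smul_smul, smul_smul, neg_mul, neg_mul, neg_smul, neg_smul]
      abel
    have h2 := hf i j l hij _ _ h1
    rw [h2]
    field_simp
    ring

end Evaluation

end Pool.Agent.LTC
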