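import Pool.Agent.LTC.PosBasic

namespace Pool.Agent.LTC

open Finset

variable {ι F : Type} [Fintype ι] [Field F] [DecidableEq F]

/-- Summing a bound over rows. -/
theorem sum_rows_le (s : ℝ) (C : Submodule F (ι → F)) (r : ι → F) (hs : s ≤ 1)
    (P : ι × ι → Prop) [DecidablePred P]
    (h : ∀ i, ∃ w ∈ C, (hammingDist r w) ≤ (univ.filter fun j => P (i, j)).card) :
    s * relDist C r * (Fintype.card (ι × ι) : ℝ) ≤ ((univ.filter fun p => P p).card : ℝ) := by
  rcases isEmpty_or_nonempty ι with hι | hι
  · simp
  have hn : (0 : ℝ) < Fintype.card ι := by exact_mod_cast Fintype.card_pos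
  have h1 : ∀ i, relDist C r * (Fintype.card ι : ℝ) ≤
      ((univ.filter fun j => P (i, j)).card : ℝ) := by
    intro i
    obtain ⟨w, hw, hle⟩ := h i
    have h2 := relDist_le C r w hw
    rw [le_div_iff₀ hn] at h2
    refine h2.trans ?_
    exact_mod_cast hle
  have h2 : (univ.filter fun p => P p).card = ∑ i, (univ.filter fun j => P (i, j)).card := by
    simp only [card_filter]
    exact Fintype.sum_prod_type _
  have h3 := relDist_nonneg C r
  calc s * relDist C r * (Fintype.card (ι × ι) : ℝ)
      ≤ relDist C r * (Fintype.card (ι × ι) : ℝ) := by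
        refine mul_le_mul_of_nonneg_right ?_ (by positivity)
        nlinarith
    _ = ∑ _i : ι, relDist C r * (Fintype.card ι : ℝ) := by
        rw [sum_const, card_univ, nsmul_eq_mul, Fintype.card_prod]
        push_cast
        ring
    _ ≤ ∑ i, ((univ.filter fun j => P (i, j)).card : ℝ) := sum_le_sum fun i _ => h1 i
    _ = ((univ.filter fun p => P p).card : ℝ) := by
        rw [h2]
        push_cast
        rfl

/-- Case A: some coordinate vanishes on the code. -/
theorem case_zero (C : Submodule F (ι → F)) (hC : Auto C) (i0 : ι) (h0 : ev C i0 = 0)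
    (s : ℝ) (hs1 : s ≤ 1) : LocallyTestable C 3 s := by
  classical
  have hall : ∀ w ∈ C, ∀ i, w i = 0 := by
    intro w hw i
    by_cases hi : i = i0
    · subst hi
      exact congrFun h0 ⟨w, hw⟩
    · obtain ⟨π, h1, h2, h3⟩ := hC i0 i i i0 (Ne.symm hi) hi
      have := congrFun h0 ⟨fun l => w (π l), h3 w hw⟩
      simpa [ev, h1] using this
  have : Nonempty ι := ⟨i0⟩
  refine locallyTestable_of_three C (Ω := ι) (fun i => i) (fun i => i) (fun i => i)
    (fun _ a _ _ => decide (a = 0)) s ?_ ?_
  · intro r hr i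
    simp [hall r hr i]
  · intro r
    have hn : (0 : ℝ) < Fintype.card ι := by exact_mod_cast Fintype.card_pos
    have h1 := relDist_le C r 0 C.zero_mem
    rw [le_div_iff₀ hn] at h1
    have h2 : (univ.filter fun ω => (decide (r ω = 0)) = false) =
        univ.filter fun i => r i ≠ (0 : ι → F) i := by
      ext i; simp
    rw [h2]
    have h3 := relDist_nonneg C r
    refine le_trans ?_ h1
    refine mul_le_mul_of_nonneg_right ?_ hn.le
    nlinarith

/-- Case B: two evaluation functionals are proportional. -/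
theorem case_proportional (C : Submodule F (ι → F)) (hC : Auto C)
    (hne : ∀ i, ev C i ≠ 0) (i0 j0 : ι) (hij : i0 ≠ j0) (c : F)
    (h0 : ev C j0 = c • ev C i0) (s : ℝ) (hs1 : s ≤ 1) : LocallyTestable C 3 s := by
  classical
  have hall : ∀ i j, i ≠ j → ∀ w ∈ C, w j = c * w i := by
    intro i j hne' w hw
    obtain ⟨π, h1, h2, h3⟩ := hC i0 j0 i j hij hne'
    have := congrFun h0 ⟨fun l => w (π l), h3 w hw⟩
    simpa [ev, h1, h2] using this
  have : Nonempty ι := ⟨i0⟩
  refine locallyTestable_of_three C (Ω := ι × ι) (fun p => p.1) (fun p => p.2) (fun p => p.1)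
    (fun p a b _ => decide (p.1 = p.2 ∨ b = c * a)) s ?_ ?_
  · rintro r hr ⟨i, j⟩
    simp only [decide_eq_true_eq]
    by_cases h : i = j
    · exact Or.inl h
    · exact Or.inr (hall i j h r hr)
  · intro r
    have := sum_rows_le s C r hs1
      (fun p : ι × ι => decide (p.1 = p.2 ∨ r p.2 = c * r p.1) = false) ?_
    · exact this
    intro i
    obtain ⟨w0, hw0⟩ : ∃ w : C, ev C i w ≠ 0 := by
      by_contra hcon
      push Not at hcon
      exact hne i (funext hcon)
    refine ⟨(r i / (w0 : ι → F) i) • (w0 : ι → F), C.smul_mem _ w0.2, ?_⟩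
    unfold hammingDist
    refine card_le_card fun j hj => ?_
    simp only [mem_filter, mem_univ, true_and, Pi.smul_apply, smul_eq_mul, ne_eq] at hj ⊢
    simp only [decide_eq_false_iff_not, not_or]
    have hw0' : (w0 : ι → F) i ≠ 0 := hw0
    constructor
    · rintro rfl
      apply hj
      rw [div_mul_cancel₀ _ hw0']
    · intro hcon
      by_cases h : i = j
      · subst h
        apply hj
        rw [div_mul_cancel₀ _ hw0']
      · apply hj
        rw [hall i j h w0 w0.2, hcon]
        field_simp

/-- Case C0: the dual code has no words of weight at most three. -/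
theorem case_top (C : Submodule F (ι → F)) (hI : PairIndep C) (hcard : 2 ≤ Fintype.card ι)
    (hspan : Submodule.span F (lowWeightDual C 3) = dualCode C)
    (h : ∀ i j l, i ≠ j → ∀ a b : F, ev C l = a • ev C i + b • ev C j →
      (a, b) = (1, 0) ∨ (a, b) = (0, 1)) (s : ℝ) : LocallyTestable C 3 s := by
  refine locallyTestable_of_relDist_eq_zero C 3 s fun r => relDist_eq_zero_of_mem C r ?_
  refine mem_of_three_point hI hcard hspan fun i j l hij a b hl => ?_
  rcases h i j l hij a b hl with h1 | h1
  · obtain ⟨rfl, rfl⟩ := Prod.mk.inj h1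
    rw [one_smul, zero_smul, add_zero] at hl
    rw [hI.ev_inj hl]; ring
  · obtain ⟨rfl, rfl⟩ := Prod.mk.inj h1
    rw [one_smul, zero_smul, zero_add] at hl
    rw [hI.ev_inj hl]; ring

end Pool.Agent.LTC
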