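import Pool.Agent.LTC.PosCases

namespace Pool.Agent.LTC

open Finset

variable {ι F : Type} [Fintype ι] [Field F] [DecidableEq F]

section Steiner

variable {C : Submodule F (ι → F)}

omit [DecidableEq F] in
theorem two_eq_zero_of_steiner (hI : PairIndep C) (hcard : 4 ≤ Fintype.card ι)
    (hthird : ∀ i j, i ≠ j → ∃ l, ev C l = -(ev C i + ev C j)) (h3 : (3 : F) ≠ 0) :
    (2 : F) = 0 := by
  classical
  by_contra h2
  have : Nontrivial ι := Fintype.one_lt_card_iff_nontrivial.1 (by omega)
  obtain ⟨i, j, hij⟩ := exists_pair_ne ι
  obtain ⟨l, hl⟩ := hthird i j hij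
  obtain ⟨m, hm⟩ : ∃ m, m ∉ ({i, j, l} : Finset ι) := by
    by_contra hcon
    push Not at hcon
    have h1 : (univ : Finset ι) ⊆ {i, j, l} := fun m _ => hcon m
    have h2 := card_le_card h1
    have h3 : ({i, j, l} : Finset ι).card ≤ 3 := card_le_three
    rw [card_univ] at h2
    omega
  simp only [mem_insert, mem_singleton, not_or] at hm
  obtain ⟨hmi, hmj, hml⟩ := hm
  obtain ⟨p, hp⟩ := hthird l m (Ne.symm hml)
  obtain ⟨l', hl'⟩ := hthird i m (Ne.symm hmi)
  have hl'j : l' ≠ j := by
    rintro rfl
    apply hml
    apply hI.ev_inj
    rw [hl, hl']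
    abel
  obtain ⟨p', hp'⟩ := hthird l' j hl'j
  have hsum : ev C p + ev C p' = (2 : F) • ev C i := by
    rw [hp, hp', hl, hl', two_smul]
    abel
  have hdiff : ev C p - ev C p' = (2 : F) • ev C j + (-2 : F) • ev C m := by
    rw [hp, hp', hl, hl', neg_smul, two_smul, two_smul]
    abel
  have hpp' : p ≠ p' := by
    rintro rfl
    rw [sub_self] at hdiff
    exact h2 (hI j m (Ne.symm hmj) _ _ hdiff.symm).1
  obtain ⟨p'', hp''⟩ := hthird p p' hpp'
  rw [hsum] at hp''
  by_cases h : p'' = i
  · subst h
    have : (3 : F) • ev C p'' = 0 := by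
      have e : (3 : F) = 2 + 1 := by norm_num
      rw [e, add_smul, one_smul]
      nth_rewrite 2 [hp'']
      abel
    rcases smul_eq_zero.1 this with h | h
    · exact h3 h
    · exact hI.ev_ne_zero hij h
  · have := hI p'' i h 1 2 (by rw [one_smul, hp'']; abel)
    exact one_ne_zero this.1

/-- In the Steiner case in characteristic two, the evaluation functionals together with `0` form
a group. -/
def steinerGroup (C : Submodule F (ι → F)) (h2 : (2 : F) = 0)
    (hthird : ∀ i j, i ≠ j → ∃ l, ev C l = -(ev C i + ev C j)) : AddSubgroup (C → F) where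
  carrier := {x | x = 0 ∨ ∃ l, ev C l = x}
  zero_mem' := Or.inl rfl
  add_mem' := by
    have hneg : ∀ x : C → F, -x = x := fun x => by
      funext w
      have : x w + x w = 0 := by rw [← two_mul, h2, zero_mul]
      exact neg_eq_of_add_eq_zero_left this
    rintro x y (rfl | ⟨l, rfl⟩) (rfl | ⟨m, rfl⟩)
    · left; simp
    · right; exact ⟨m, by simp⟩
    · right; exact ⟨l, by simp⟩
    · by_cases hlm : l = m
      · left
        subst hlm
        nth_rewrite 2 [← hneg (ev C l)]
        abel
      · right
        obtain ⟨p, hp⟩ := hthird l m hlm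
        exact ⟨p, by rw [hp, hneg]⟩
  neg_mem' := by
    have hneg : ∀ x : C → F, -x = x := fun x => by
      funext w
      have : x w + x w = 0 := by rw [← two_mul, h2, zero_mul]
      exact neg_eq_of_add_eq_zero_left this
    rintro x hx
    rw [hneg]
    exact hx

theorem case_steiner (hI : PairIndep C) (hcard : 4 ≤ Fintype.card ι)
    (hspan : Submodule.span F (lowWeightDual C 3) = dualCode C)
    (hthird : ∀ i j, i ≠ j → ∃ l, ev C l = -(ev C i + ev C j))
    (hline' : ∀ i j l, i ≠ j → ∀ a b : F, ev C l = a • ev C i + b • ev C j →
      (a, b) = (1, 0) ∨ (a, b) = (0, 1) ∨ (a, b) = (-1, -1))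
    (h3 : (3 : F) ≠ 0) : LocallyTestable C 3 (1 / 26) := by
  classical
  have h2 := two_eq_zero_of_steiner hI hcard hthird h3
  have hdouble : ∀ x : F, x + x = 0 := fun x => by rw [← two_mul, h2, zero_mul]
  have hnegF : ∀ x : F, -x = x := fun x => neg_eq_of_add_eq_zero_left (hdouble x)
  have hne : Nonempty ι := Fintype.card_pos_iff.1 (by omega)
  obtain ⟨i0⟩ := id hne
  have hnt : Nontrivial ι := Fintype.one_lt_card_iff_nontrivial.1 (by omega)
  have hev0 : ∀ i, ev C i ≠ 0 := fun i => by
    obtain ⟨j, hj⟩ := exists_ne i
    exact hI.ev_ne_zero hj.symm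
  let M := steinerGroup C h2 hthird
  let E0 : Option ι → M := fun o => match o with
    | none => 0
    | some l => ⟨ev C l, Or.inr ⟨l, rfl⟩⟩
  have hE0n : E0 none = 0 := rfl
  have hE0s : ∀ l, (E0 (some l) : C → F) = ev C l := fun _ => rfl
  have hbij : Function.Bijective E0 := by
    constructor
    · rintro (_ | l) (_ | m) h
      · rfl
      · exfalso
        apply hev0 m
        rw [← hE0s, ← h]
        rfl
      · exfalso
        apply hev0 l
        rw [← hE0s, h]
        rfl
      · have : ev C l = ev C m := by rw [← hE0s, h, hE0s]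
        rw [hI.ev_inj this]
    · rintro ⟨x, (rfl | ⟨l, rfl⟩)⟩
      · exact ⟨none, rfl⟩
      · exact ⟨some l, rfl⟩
  let E : Option ι ≃ M := Equiv.ofBijective E0 hbij
  have hEn : E none = 0 := rfl
  have hEs : ∀ l, (E (some l) : C → F) = ev C l := fun _ => rfl
  let _ : Fintype M := Fintype.ofEquiv _ E
  have hcardM : Fintype.card M = Fintype.card ι + 1 := by
    rw [← Fintype.card_congr E, Fintype.card_option]
  -- third points
  have ht : ∀ p : ι × ι, ∃ l, p.1 ≠ p.2 → ev C l = ev C p.1 + ev C p.2 := by
    intro p
    by_cases hp : p.1 = p.2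
    · exact ⟨i0, fun h => absurd hp h⟩
    · obtain ⟨l, hl⟩ := hthird p.1 p.2 hp
      refine ⟨l, fun _ => ?_⟩
      rw [hl]
      funext w
      exact hnegF _
  choose t ht using ht
  have htE : ∀ i j, i ≠ j → E (some (t (i, j))) = E (some i) + E (some j) := by
    intro i j hij
    apply Subtype.ext
    rw [hEs, ht (i, j) hij]
    rfl
  have hEE : ∀ i, E (some i) + E (some i) = 0 := by
    intro i
    apply Subtype.ext
    funext w
    exact hdouble _
  have hnn : Nonempty (ι × ι) := ⟨(i0, i0)⟩
  refine locallyTestable_of_three C (Ω := ι × ι) (fun p => p.1) (fun p => p.2) t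
    (fun p x y z => decide (p.1 = p.2 ∨ z = x + y)) (1 / 26) ?_ ?_
  · rintro r hr ⟨i, j⟩
    simp only [decide_eq_true_eq]
    by_cases hij : i = j
    · exact Or.inl hij
    · right
      have := congrFun (ht (i, j) hij) ⟨r, hr⟩
      simpa [ev] using this
  · intro r
    set f : M → F := fun x => match E.symm x with
      | none => 0
      | some l => r l with hf
    have hfn : f (E none) = 0 := by simp [hf]
    have hf0 : f 0 = 0 := by rw [← hEn]; exact hfn
    have hfs : ∀ l, f (E (some l)) = r l := fun l => by simp [hf]
    set B := (univ.filter fun p : ι × ι =>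
      decide (p.1 = p.2 ∨ r (t p) = r p.1 + r p.2) = false).card with hB
    set V := ∑ x, ∑ y, vio f f f x y with hVdef
    have hV : V ≤ B := by
      have hB' : B = ∑ i : ι, ∑ j : ι,
          if decide (i = j ∨ r (t (i, j)) = r i + r j) = false then 1 else 0 := by
        rw [hB, card_filter, Fintype.sum_prod_type]
      rw [hVdef, hB', ← Equiv.sum_comp E, Fintype.sum_option]
      have z1 : ∑ y, vio f f f (E none) y = 0 := by
        refine sum_eq_zero fun y _ => ?_
        rw [hEn]
        simp [vio, hf0]
      rw [z1, zero_add]
      refine sum_le_sum fun i _ => ?_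
      rw [← Equiv.sum_comp E, Fintype.sum_option]
      have z2 : vio f f f (E (some i)) (E none) = 0 := by
        rw [hEn]
        simp [vio, hf0]
      rw [z2, zero_add]
      refine sum_le_sum fun j _ => ?_
      by_cases hij : i = j
      · subst hij
        have : vio f f f (E (some i)) (E (some i)) = 0 := by
          simp [vio, hEE, hf0, hdouble]
        rw [this]
        exact Nat.zero_le _
      · simp only [vio, ← htE i j hij, hfs]
        by_cases h : r (t (i, j)) = r i + r j
        · simp [h]
        · simp [h, hij]
    have hn : (0 : ℝ) < Fintype.card ι := by exact_mod_cast Fintype.card_pos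
    have hcp : (Fintype.card (ι × ι) : ℝ) = Fintype.card ι * Fintype.card ι := by
      rw [Fintype.card_prod]; push_cast; ring
    rw [hcp]
    by_cases hlt : 24 * V < Fintype.card M * Fintype.card M
    · obtain ⟨ψ, c, hdist⟩ := blr f f f hlt
      rw [← hVdef] at hdist
      -- the constant is zero
      have hc : c = 0 := by
        by_contra hc0
        let d : M → ℕ := fun x => if f x = ψ x + c then 0 else 1
        set D := (univ.filter fun x => f x ≠ ψ x + c).card with hD
        have hd : ∑ x, d x = D := by
          rw [hD, card_filter]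
          refine sum_congr rfl fun x _ => ?_
          simp only [d, ne_eq, ite_not]
        have hpt : ∀ x y : M, 1 ≤ vio f f f x y + d (x + y) + d x + d y := by
          intro x y
          by_contra hlt'
          have h1 : vio f f f x y = 0 := by omega
          have h2 : d (x + y) = 0 := by omega
          have h3 : d x = 0 := by omega
          have h4 : d y = 0 := by omega
          simp only [vio, d, ite_eq_left_iff, one_ne_zero, imp_false, not_not] at h1 h2 h3 h4
          rw [h2, h3, h4, map_add] at h1
          apply hc0
          linear_combination -h1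
        have htot : Fintype.card M * Fintype.card M ≤
            V + Fintype.card M * D + Fintype.card M * D + Fintype.card M * D := by
          have e1 : ∑ x : M, ∑ y : M, d (x + y) = Fintype.card M * D := by
            have : ∀ x : M, ∑ y : M, d (x + y) = D := by
              intro x
              rw [← hd]
              exact Equiv.sum_comp (Equiv.addLeft x) d
            rw [sum_congr rfl fun x _ => this x, sum_const, card_univ, smul_eq_mul]
          have e2 : ∑ x : M, ∑ _y : M, d x = Fintype.card M * D := by
            simp only [sum_const, card_univ, smul_eq_mul, ← mul_sum, hd]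
          have e3 : ∑ _x : M, ∑ y : M, d y = Fintype.card M * D := by
            simp only [hd, sum_const, card_univ, smul_eq_mul]
          calc Fintype.card M * Fintype.card M = ∑ _x : M, ∑ _y : M, 1 := by simp
            _ ≤ ∑ x : M, ∑ y : M, (vio f f f x y + d (x + y) + d x + d y) :=
                sum_le_sum fun x _ => sum_le_sum fun y _ => hpt x y
            _ = _ := by
                simp only [sum_add_distrib]
                rw [e1, e2, e3]
        omega
      subst hc
      simp only [add_zero] at hdist
      have hw : (fun i => ψ (E (some i))) ∈ C := by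
        refine mem_of_three_point hI (by omega) hspan fun i j l hij a b hl => ?_
        rcases hline' i j l hij a b hl with hab | hab | hab
        · obtain ⟨rfl, rfl⟩ := Prod.mk.inj hab
          rw [one_smul, zero_smul, add_zero] at hl
          rw [hI.ev_inj hl]; ring
        · obtain ⟨rfl, rfl⟩ := Prod.mk.inj hab
          rw [one_smul, zero_smul, zero_add] at hl
          rw [hI.ev_inj hl]; ring
        · obtain ⟨rfl, rfl⟩ := Prod.mk.inj hab
          have hEl : E (some l) = -E (some i) - E (some j) := by
            apply Subtype.ext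
            rw [hEs, hl]
            funext w
            simp only [AddSubgroup.coe_sub, AddSubgroup.coe_neg, hEs, Pi.add_apply,
              Pi.smul_apply, smul_eq_mul, Pi.sub_apply, Pi.neg_apply]
            ring
          rw [hEl, map_sub, map_neg]
          ring
      have hd : hammingDist r (fun i => ψ (E (some i))) ≤
          (univ.filter fun x => f x ≠ ψ x).card := by
        unfold hammingDist
        rw [card_filter, card_filter, ← Equiv.sum_comp E, Fintype.sum_option]
        refine le_trans (le_of_eq ?_) (Nat.le_add_left _ _)
        refine sum_congr rfl fun i _ => ?_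
        rw [hfs]
      have h1 := relDist_le C r _ hw
      rw [le_div_iff₀ hn] at h1
      have h2 : (Fintype.card ι : ℝ) * ((univ.filter fun x => f x ≠ ψ x).card : ℝ) ≤ 4 * V := by
        have : Fintype.card ι * (univ.filter fun x => f x ≠ ψ x).card ≤ 4 * V := by
          refine le_trans (Nat.mul_le_mul_right _ ?_) hdist
          omega
        exact_mod_cast this
      have h3 : (hammingDist r (fun i => ψ (E (some i))) : ℝ) ≤
          ((univ.filter fun x => f x ≠ ψ x).card : ℝ) := by exact_mod_cast hd
      have h4 : (V : ℝ) ≤ B := by exact_mod_cast hV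
      have h5 : (0 : ℝ) ≤ B := by positivity
      have h6 := mul_le_mul_of_nonneg_right (h1.trans h3) hn.le
      nlinarith
    · push Not at hlt
      rw [hcardM] at hlt
      have h1 := relDist_le_one C r
      have h2' : Fintype.card ι * Fintype.card ι ≤ 24 * B := by nlinarith
      have h2 : (Fintype.card ι : ℝ) * Fintype.card ι ≤ 24 * B := by exact_mod_cast h2'
      have h3 := relDist_nonneg C r
      have h4 : 0 < (Fintype.card ι : ℝ) * Fintype.card ι := by positivity
      have h5 : relDist C r * ((Fintype.card ι : ℝ) * Fintype.card ι) ≤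
        1 * ((Fintype.card ι : ℝ) * Fintype.card ι) := mul_le_mul_of_nonneg_right h1 h4.le
      have h7 : (0 : ℝ) ≤ B := by positivity
      have h6 : 1 / 26 * relDist C r * ((Fintype.card ι : ℝ) * Fintype.card ι) ≤ B := by
        linarith
      exact h6

end Steiner

end Pool.Agent.LTC
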