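import Pool.Agent.LTC.PosAffine
import Pool.Agent.LTC.PosSteiner

namespace Pool.Agent.LTC

variable {ι F : Type} [Fintype ι] [Field F] [DecidableEq F]

omit [Fintype ι] [DecidableEq F] in
theorem isLineSet_of_auto {C : Submodule F (ι → F)} (hC : Auto C) (hI : PairIndep C)
    {i0 j0 : ι} (h0 : i0 ≠ j0) :
    IsLineSet {p : F × F | ∃ l, ev C l = p.1 • ev C i0 + p.2 • ev C j0} where
  e1 := ⟨i0, by simp⟩
  e2 := ⟨j0, by simp⟩
  indep := by
    rintro ⟨a, b⟩ ⟨l, hl⟩ ⟨c, d⟩ ⟨m, hm⟩ hne hdet
    simp only at hl hm hdet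
    have hlm : l ≠ m := by
      rintro rfl
      apply hne
      obtain ⟨h1, h2⟩ := hI.coeff_eq h0 (hl.symm.trans hm)
      rw [h1, h2]
    have e1 : d • ev C l + (-b) • ev C m = 0 := by
      rw [hl, hm]
      funext w
      simp only [Pi.add_apply, Pi.smul_apply, smul_eq_mul, Pi.zero_apply]
      linear_combination (ev C i0 w) * hdet
    have e2 : c • ev C l + (-a) • ev C m = 0 := by
      rw [hl, hm]
      funext w
      simp only [Pi.add_apply, Pi.smul_apply, smul_eq_mul, Pi.zero_apply]
      linear_combination (-(ev C j0 w)) * hdet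
    obtain ⟨hd, hb⟩ := hI l m hlm _ _ e1
    obtain ⟨hc, ha⟩ := hI l m hlm _ _ e2
    rw [neg_eq_zero] at hb ha
    apply hne
    rw [ha, hb, hc, hd]
  change := by
    rintro ⟨a, b⟩ ⟨l, hl⟩ ⟨c, d⟩ ⟨m, hm⟩ hne x y
    simp only at hl hm
    have hlm : l ≠ m := by
      rintro rfl
      apply hne
      obtain ⟨h1, h2⟩ := hI.coeff_eq h0 (hl.symm.trans hm)
      rw [h1, h2]
    have key : x • ev C l + y • ev C m = (x * a + y * c) • ev C i0 + (x * b + y * d) • ev C j0 := by
      rw [hl, hm]
      funext w
      simp only [Pi.add_apply, Pi.smul_apply, smul_eq_mul]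
      ring
    constructor
    · intro h
      obtain ⟨r, hr⟩ := exists_transport hC h0 hlm h
      exact ⟨r, hr.trans key⟩
    · rintro ⟨r, hr⟩
      exact exists_transport hC hlm h0 ⟨r, hr.trans key.symm⟩

/-- Every doubly transitive code whose dual is spanned by words of weight at most three is
testable with three queries and soundness `1/26`. -/
theorem locallyTestable_of_weight_three [Finite F] {C : Submodule F (ι → F)}
    (hDT : DoublyTransitiveCode C)
    (hspan : Submodule.span F (lowWeightDual C 3) = dualCode C) :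
    LocallyTestable C 3 (1 / 26) := by
  classical
  by_cases hcard : Fintype.card ι ≤ 3
  · exact locallyTestable_of_card_le_three C hcard _ (by norm_num) (by norm_num)
  push Not at hcard
  have hC := auto_of_doublyTransitive hDT
  by_cases hz : ∃ i, ev C i = 0
  · obtain ⟨i, hi⟩ := hz
    exact case_zero C hC i hi _ (by norm_num)
  push Not at hz
  by_cases hp : ∃ i j, i ≠ j ∧ ∃ c : F, ev C j = c • ev C i
  · obtain ⟨i, j, hij, c, hc⟩ := hp
    exact case_proportional C hC hz i j hij c hc _ (by norm_num)
  push Not at hp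
  have hI : PairIndep C := by
    intro i j hij a b hab
    have hb : b = 0 := by
      by_contra hb
      apply hp i j hij (-(b⁻¹ * a))
      have h1 : b • ev C j = -(a • ev C i) := by
        rw [eq_neg_iff_add_eq_zero, add_comm]; exact hab
      calc ev C j = b⁻¹ • (b • ev C j) := by rw [smul_smul, inv_mul_cancel₀ hb, one_smul]
        _ = -(b⁻¹ * a) • ev C i := by rw [h1, smul_neg, smul_smul, neg_smul]
    subst hb
    rw [zero_smul, add_zero] at hab
    rcases smul_eq_zero.1 hab with h | h
    · exact ⟨h, rfl⟩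
    · exact absurd h (hz i)
  have : Nontrivial ι := Fintype.one_lt_card_iff_nontrivial.1 (by omega)
  obtain ⟨i0, j0, h0⟩ := exists_pair_ne ι
  have hL := isLineSet_of_auto hC hI h0
  set L := {p : F × F | ∃ l, ev C l = p.1 • ev C i0 + p.2 • ev C j0} with hLdef
  have htoL : ∀ i j l, i ≠ j → ∀ a b : F, ev C l = a • ev C i + b • ev C j → (a, b) ∈ L :=
    fun i j l hij a b h => exists_transport hC hij h0 ⟨l, h⟩
  have hofL : ∀ i j, i ≠ j → ∀ a b : F, (a, b) ∈ L → ∃ l, ev C l = a • ev C i + b • ev C j :=
    fun i j hij a b h => exists_transport hC h0 hij h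
  by_cases hthird : ∃ l ∈ L, l ≠ (1, 0) ∧ l ≠ (0, 1)
  · rcases hL.classify hthird with ⟨h3, hLeq⟩ | ⟨k, hk, hLeq⟩
    · refine case_steiner hI (by omega) hspan ?_ ?_ h3
      · intro i j hij
        obtain ⟨l, hl⟩ := hofL i j hij (-1) (-1) (by rw [hLeq]; simp)
        refine ⟨l, ?_⟩
        rw [hl, neg_smul, neg_smul, one_smul, one_smul]
        abel
      · intro i j l hij a b h
        have := htoL i j l hij a b h
        rw [hLeq] at this
        simpa using this
    · refine case_affine (k := k) hI (by omega) hspan ?_ ?_ hk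
      · intro i j hij a ha
        exact hofL i j hij (1 - a) a (by rw [hLeq]; exact ⟨a, ha, rfl⟩)
      · intro i j l hij a b h
        have := htoL i j l hij a b h
        rw [hLeq] at this
        exact this
  · push Not at hthird
    refine case_top C hI (by omega) hspan ?_ _
    intro i j l hij a b h
    have h1 := htoL i j l hij a b h
    by_cases h2 : (a, b) = (1, 0)
    · exact Or.inl h2
    · exact Or.inr (hthird _ h1 h2)

end Pool.Agent.LTC
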